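import Pool.Agent.TH961.AP.Ker

set_option autoImplicit false

namespace Pool.Agent.TH961.AP

open Finset

/-- coprime pairs `q ≤ a ≤ A` with `δ log (a/q) / 2π` within `B` of an integer -/
noncomputable def GG (δ : ℝ) (A : ℕ) (B : ℝ) : Finset (ℕ × ℕ) :=
  ((Icc 1 A) ×ˢ (Icc 1 A)).filter
    (fun p => p.1 ≤ p.2 ∧ Nat.Coprime p.1 p.2 ∧ dn (xx δ p.1 p.2) ≤ B)

theorem mem_GG {δ : ℝ} {A : ℕ} {B : ℝ} {p : ℕ × ℕ} : p ∈ GG δ A B ↔
    1 ≤ p.1 ∧ p.1 ≤ p.2 ∧ p.2 ≤ A ∧ Nat.Coprime p.1 p.2 ∧ dn (xx δ p.1 p.2) ≤ B := by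
  unfold GG
  simp only [mem_filter, mem_product, mem_Icc]
  constructor
  · rintro ⟨⟨⟨h1, h2⟩, h3, h4⟩, h5, h6, h7⟩
    exact ⟨h1, h5, h4, h6, h7⟩
  · rintro ⟨h1, h2, h3, h4, h5⟩
    exact ⟨⟨⟨h1, h2.trans h3⟩, h1.trans h2, h3⟩, h2, h4, h5⟩

theorem log_sep {u v : ℕ} (hu : 1 ≤ u) (huv : u < v) : 1 / (v:ℝ) ≤ Real.log v - Real.log u := by
  have hu' : (0:ℝ) < u := by exact_mod_cast hu
  have hv' : (0:ℝ) < v := by exact_mod_cast (by omega : 0 < v)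
  have h1 := Real.log_le_sub_one_of_pos (x := (u:ℝ) / v) (by positivity)
  rw [Real.log_div hu'.ne' hv'.ne'] at h1
  have h2 : (u:ℝ) + 1 ≤ v := by exact_mod_cast huv
  have h3 : (u:ℝ) / v ≤ 1 - 1 / v := by
    rw [div_le_iff₀ hv', sub_mul, one_mul, one_div, inv_mul_cancel₀ hv'.ne']
    linarith
  linarith

theorem sep_aux {δ : ℝ} (hδ : 0 < δ) {A : ℕ} {p p' : ℕ × ℕ}
    (h1 : 1 ≤ p.1) (h1' : 1 ≤ p'.1) (h2 : 1 ≤ p.2) (h2' : 1 ≤ p'.2) (h4 : p.1 ≤ A)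
    (h3 : p'.2 ≤ A) (hlt : p.2 * p'.1 < p'.2 * p.1) :
    δ / (2 * Real.pi * (A:ℝ) ^ 2) ≤ xx δ p'.1 p'.2 - xx δ p.1 p.2 := by
  have hpi := Real.pi_pos
  have hA : (0:ℝ) < A := by exact_mod_cast (by omega : 0 < A)
  have hl := log_sep (Nat.mul_pos h2 h1') hlt
  push_cast at hl
  have e1 : (0:ℝ) < p.1 := by exact_mod_cast h1
  have e2 : (0:ℝ) < p.2 := by exact_mod_cast h2
  have e3 : (0:ℝ) < p'.1 := by exact_mod_cast h1'
  have e4 : (0:ℝ) < p'.2 := by exact_mod_cast h2'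
  rw [Real.log_mul e4.ne' e1.ne', Real.log_mul e2.ne' e3.ne'] at hl
  have h5 : (p'.2:ℝ) * p.1 ≤ (A:ℝ) ^ 2 := by
    have a1 : (p'.2:ℝ) ≤ A := by exact_mod_cast h3
    have a2 : (p.1:ℝ) ≤ A := by exact_mod_cast h4
    nlinarith
  have h6 : 1 / (A:ℝ) ^ 2 ≤ 1 / ((p'.2:ℝ) * p.1) := one_div_le_one_div_of_le (by positivity) h5
  have h7 : xx δ p'.1 p'.2 - xx δ p.1 p.2 =
      δ / (2 * Real.pi) * ((Real.log p'.2 + Real.log p.1) - (Real.log p.2 + Real.log p'.1)) := by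
    unfold xx; ring
  have h8 : δ / (2 * Real.pi * (A:ℝ) ^ 2) = δ / (2 * Real.pi) * (1 / (A:ℝ) ^ 2) := by
    field_simp
  rw [h7, h8]
  apply mul_le_mul_of_nonneg_left _ (by positivity)
  linarith

theorem sep {δ : ℝ} (hδ : 0 < δ) {A : ℕ} {B : ℝ} {p p' : ℕ × ℕ}
    (hp : p ∈ GG δ A B) (hp' : p' ∈ GG δ A B) (hne : p ≠ p') :
    δ / (2 * Real.pi * (A:ℝ) ^ 2) ≤ |xx δ p.1 p.2 - xx δ p'.1 p'.2| := by
  rw [mem_GG] at hp hp'
  obtain ⟨h1, h2, h3, h4, _⟩ := hp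
  obtain ⟨h1', h2', h3', h4', _⟩ := hp'
  have hcr : p.2 * p'.1 ≠ p'.2 * p.1 := by
    intro h
    apply hne
    have d1 : p.1 ∣ p'.1 := by
      have : p.1 ∣ p.2 * p'.1 := ⟨p'.2, by rw [h]; ring⟩
      exact (Nat.Coprime.dvd_of_dvd_mul_left h4 this)
    have d2 : p'.1 ∣ p.1 := by
      have : p'.1 ∣ p'.2 * p.1 := ⟨p.2, by rw [← h]; ring⟩
      exact (Nat.Coprime.dvd_of_dvd_mul_left h4' this)
    have e1 : p.1 = p'.1 := Nat.dvd_antisymm d1 d2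
    have e2 : p.2 = p'.2 := by
      rw [e1] at h
      exact Nat.eq_of_mul_eq_mul_right (by omega) h
    exact Prod.ext e1 e2
  rcases lt_or_gt_of_ne hcr with h | h
  · have := sep_aux hδ (A := A) (p := p) (p' := p') h1 h1' (h1.trans h2) (h1'.trans h2')
      (h2.trans h3) h3' h
    rw [abs_sub_comm]
    exact this.trans (le_abs_self _)
  · have := sep_aux hδ (A := A) (p := p') (p' := p) h1' h1 (h1'.trans h2') (h1.trans h2)
      (h2'.trans h3') h3 h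
    exact this.trans (le_abs_self _)

theorem card_GG {δ : ℝ} (hδ : 1 ≤ δ) {A : ℕ} (hA : 1 ≤ A) {B : ℝ} (hB : 0 ≤ B) :
    ((GG δ A B).card : ℝ) ≤ 13 * (Real.log A + 2) * (B * (A:ℝ) ^ 2 + δ) := by
  classical
  have hpi := Real.pi_pos
  have hpi3 := Real.pi_gt_three
  have hpi4 := Real.pi_lt_d2
  have hδ0 : 0 < δ := by linarith
  have hAr : (1:ℝ) ≤ A := by exact_mod_cast hA
  have hlA : 0 ≤ Real.log A := Real.log_nonneg hAr
  set σ : ℝ := δ / (2 * Real.pi * (A:ℝ) ^ 2) with hσ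
  have hσ0 : 0 < σ := by positivity
  set M : ℝ := δ * Real.log A / (2 * Real.pi) with hM
  have hM0 : 0 ≤ M := by positivity
  let f : ℕ × ℕ → ℤ × ℤ := fun p =>
    (round (xx δ p.1 p.2), ⌊(xx δ p.1 p.2 - round (xx δ p.1 p.2)) / σ⌋)
  have hmaps : ∀ p ∈ GG δ A B, f p ∈ (Icc (0:ℤ) (⌊M⌋ + 1)) ×ˢ (Icc ⌊-(B / σ)⌋ ⌊B / σ⌋) := by
    intro p hp
    rw [mem_GG] at hp
    obtain ⟨h1, h2, h3, h4, h5⟩ := hp
    have e1 : (0:ℝ) < p.1 := by exact_mod_cast h1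
    have e2 : (p.1:ℝ) ≤ p.2 := by exact_mod_cast h2
    have e3 : (p.2:ℝ) ≤ A := by exact_mod_cast h3
    have e4 : (1:ℝ) ≤ p.1 := by exact_mod_cast h1
    have hx0 : 0 ≤ xx δ p.1 p.2 := by
      unfold xx
      have := Real.log_le_log e1 e2
      apply div_nonneg _ (by positivity)
      apply mul_nonneg hδ0.le
      linarith
    have hxM : xx δ p.1 p.2 ≤ M := by
      unfold xx
      rw [hM]
      apply div_le_div_of_nonneg_right _ (by positivity)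
      apply mul_le_mul_of_nonneg_left _ hδ0.le
      have := Real.log_le_log (lt_of_lt_of_le e1 e2) e3
      have := Real.log_nonneg e4
      linarith
    have hd := abs_le.1 h5
    simp only [f, mem_product, mem_Icc]
    refine ⟨⟨?_, ?_⟩, ?_, ?_⟩
    · rw [round_eq]
      apply Int.floor_nonneg.2
      linarith
    · rw [round_eq]
      have : ⌊xx δ p.1 p.2 + 1 / 2⌋ ≤ ⌊M + 1⌋ := Int.floor_le_floor (by linarith)
      rwa [Int.floor_add_one] at this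
    · apply Int.floor_le_floor
      rw [← neg_div]
      exact div_le_div_of_nonneg_right hd.1 hσ0.le
    · apply Int.floor_le_floor
      exact div_le_div_of_nonneg_right hd.2 hσ0.le
  have hinj : Set.InjOn f (GG δ A B : Set (ℕ × ℕ)) := by
    intro p hp p' hp' hf
    by_contra hne
    have hs := sep hδ0 (mem_coe.1 hp) (mem_coe.1 hp') hne
    simp only [f, Prod.mk.injEq] at hf
    obtain ⟨hf1, hf2⟩ := hf
    have h1 := Int.abs_sub_lt_one_of_floor_eq_floor hf2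
    rw [← sub_div, abs_div, abs_of_pos hσ0, div_lt_one hσ0] at h1
    rw [hf1] at h1
    have h2 : xx δ p.1 p.2 - (round (xx δ p'.1 p'.2) : ℝ) -
        (xx δ p'.1 p'.2 - (round (xx δ p'.1 p'.2) : ℝ)) = xx δ p.1 p.2 - xx δ p'.1 p'.2 := by ring
    rw [h2] at h1
    linarith
  have hcard := Finset.card_le_card_of_injOn f hmaps hinj
  rw [card_product, Int.card_Icc, Int.card_Icc] at hcard
  have hc1 : (((⌊M⌋ + 1 + 1 - 0).toNat : ℕ) : ℝ) ≤ M + 2 := by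
    have : (0:ℤ) ≤ ⌊M⌋ := Int.floor_nonneg.2 hM0
    have h2 : (((⌊M⌋ + 1 + 1 - 0).toNat : ℤ) : ℝ) = ((⌊M⌋ + 1 + 1 - 0 : ℤ) : ℝ) := by
      rw [Int.toNat_of_nonneg (by omega)]
    have h3 := Int.floor_le M
    have h4 : (((⌊M⌋ + 1 + 1 - 0).toNat : ℕ) : ℝ) = ((⌊M⌋ + 1 + 1 - 0 : ℤ) : ℝ) := by
      rw [← h2]; norm_cast
    rw [h4]
    push_cast
    linarith
  have hBσ : 0 ≤ B / σ := by positivity
  have hc2 : (((⌊B / σ⌋ + 1 - ⌊-(B / σ)⌋).toNat : ℕ) : ℝ) ≤ 2 * (B / σ) + 2 := by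
    have h1 : ⌊-(B / σ)⌋ ≤ ⌊B / σ⌋ := Int.floor_le_floor (by linarith)
    have h2 : (((⌊B / σ⌋ + 1 - ⌊-(B / σ)⌋).toNat : ℕ) : ℝ) =
        ((⌊B / σ⌋ + 1 - ⌊-(B / σ)⌋ : ℤ) : ℝ) := by
      have h3 : (((⌊B / σ⌋ + 1 - ⌊-(B / σ)⌋).toNat : ℤ) : ℝ) =
        ((⌊B / σ⌋ + 1 - ⌊-(B / σ)⌋ : ℤ) : ℝ) := by
        rw [Int.toNat_of_nonneg (by omega)]
      rw [← h3]; norm_cast
    rw [h2]
    push_cast
    have h3 := Int.floor_le (B / σ)
    have h4 := Int.lt_floor_add_one (-(B / σ))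
    linarith
  have hc3 : ((GG δ A B).card : ℝ) ≤ (M + 2) * (2 * (B / σ) + 2) := by
    calc ((GG δ A B).card : ℝ) ≤ (((⌊M⌋ + 1 + 1 - 0).toNat *
          (⌊B / σ⌋ + 1 - ⌊-(B / σ)⌋).toNat : ℕ) : ℝ) := by exact_mod_cast hcard
      _ = (((⌊M⌋ + 1 + 1 - 0).toNat : ℕ) : ℝ) *
          (((⌊B / σ⌋ + 1 - ⌊-(B / σ)⌋).toNat : ℕ) : ℝ) := by push_cast; ring
      _ ≤ (M + 2) * (2 * (B / σ) + 2) := by
          apply mul_le_mul hc1 hc2 (by positivity) (by positivity)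
  refine hc3.trans ?_
  have hM2 : M + 2 ≤ δ * (Real.log A + 2) := by
    have : M ≤ δ * Real.log A := by
      rw [hM, div_le_iff₀ (by positivity)]
      have : 0 ≤ δ * Real.log A := by positivity
      nlinarith
    linarith [this, hδ]
  have hB2 : 2 * (B / σ) + 2 = (4 * Real.pi * (B * (A:ℝ) ^ 2) + 2 * δ) / δ := by
    rw [hσ]
    field_simp
    ring
  rw [hB2]
  have hnn : 0 ≤ (4 * Real.pi * (B * (A:ℝ) ^ 2) + 2 * δ) / δ := by positivity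
  calc (M + 2) * ((4 * Real.pi * (B * (A:ℝ) ^ 2) + 2 * δ) / δ)
      ≤ (δ * (Real.log A + 2)) * ((4 * Real.pi * (B * (A:ℝ) ^ 2) + 2 * δ) / δ) :=
        mul_le_mul_of_nonneg_right hM2 hnn
    _ = (Real.log A + 2) * (4 * Real.pi * (B * (A:ℝ) ^ 2) + 2 * δ) := by
        field_simp
    _ ≤ (Real.log A + 2) * (13 * (B * (A:ℝ) ^ 2 + δ)) := by
        apply mul_le_mul_of_nonneg_left _ (by linarith)
        have : 0 ≤ B * (A:ℝ) ^ 2 := by positivity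
        nlinarith
    _ = 13 * (Real.log A + 2) * (B * (A:ℝ) ^ 2 + δ) := by ring

end Pool.Agent.TH961.AP
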