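import Pool.Agent.TH961.AP.Ker

set_option autoImplicit false

/-!
Generic dilates: the mean over `λ ∈ [Λ, 2Λ]` of the double sum over differences.
-/

namespace Pool.Agent.TH961.AP

open Finset

/-- `∑_{m,n ≤ N} |∑_{t ∈ T} exp (i λ t log (n/m))|²` -/
noncomputable def GS (N : ℕ) (T : Finset ℤ) (lam : ℝ) : ℝ :=
  ∑ m ∈ Icc 1 N, ∑ n ∈ Icc 1 N, ∑ t ∈ T, ∑ t' ∈ T,
    Real.cos (lam * ((Real.log n - Real.log m) * ((t:ℝ) - t')))

theorem cos_sum_sq (T : Finset ℤ) (y : ℝ) :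
    ∑ t ∈ T, ∑ t' ∈ T, Real.cos (y * ((t:ℝ) - t')) =
      (∑ t ∈ T, Real.cos (y * t)) ^ 2 + (∑ t ∈ T, Real.sin (y * t)) ^ 2 := by
  have h : ∀ t ∈ T, ∀ t' ∈ T, Real.cos (y * ((t:ℝ) - t')) =
      Real.cos (y * t) * Real.cos (y * t') + Real.sin (y * t) * Real.sin (y * t') := by
    intro t _ t' _
    rw [mul_sub, Real.cos_sub]
  rw [sum_congr rfl (fun t ht => sum_congr rfl (fun t' ht' => h t ht t' ht'))]
  rw [sq, sq, sum_mul_sum, sum_mul_sum]
  rw [← sum_add_distrib]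
  apply sum_congr rfl
  intro t _
  rw [← sum_add_distrib]

theorem cos_sum_nonneg (T : Finset ℤ) (y : ℝ) :
    0 ≤ ∑ t ∈ T, ∑ t' ∈ T, Real.cos (y * ((t:ℝ) - t')) := by
  rw [cos_sum_sq]; positivity

theorem GS_nonneg (N : ℕ) (T : Finset ℤ) (lam : ℝ) : 0 ≤ GS N T lam := by
  unfold GS
  apply sum_nonneg
  intro m _
  apply sum_nonneg
  intro n _
  have := cos_sum_nonneg T (lam * (Real.log n - Real.log m))
  refine this.trans (le_of_eq ?_)
  apply sum_congr rfl
  intro t _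
  apply sum_congr rfl
  intro t' _
  congr 1
  ring

/-- the double sum over differences -/
theorem diff_sum (N : ℕ) (T : Finset ℤ) (lam t₀ : ℝ) (a : ℕ → ℂ) (ha : ∀ n, ‖a n‖ ≤ 1) :
    ∑ t ∈ T, ∑ t' ∈ T, ‖DP N a (t₀ + lam * ((t:ℝ) - t'))‖ ^ 2 ≤ GS N T lam := by
  have hterm : ∀ t ∈ T, ∀ t' ∈ T, ((‖DP N a (t₀ + lam * ((t:ℝ) - t'))‖ ^ 2 : ℝ) : ℂ) =
      ∑ m ∈ Icc 1 N, ∑ n ∈ Icc 1 N, (a m * (starRingEnd ℂ) (a n) *
        Complex.exp ((t₀ * (Real.log n - Real.log m) : ℝ) * Complex.I)) *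
        (Complex.exp ((lam * (Real.log n - Real.log m) * t : ℝ) * Complex.I) *
          (starRingEnd ℂ) (Complex.exp ((lam * (Real.log n - Real.log m) * t' : ℝ) * Complex.I))) := by
    intro t _ t' _
    have h1 : ((‖DP N a (t₀ + lam * ((t:ℝ) - t'))‖ ^ 2 : ℝ) : ℂ) =
        DP N a (t₀ + lam * ((t:ℝ) - t')) *
          (starRingEnd ℂ) (DP N a (t₀ + lam * ((t:ℝ) - t'))) := by
      rw [Complex.mul_conj, Complex.normSq_eq_norm_sq]
    rw [h1]
    unfold DP
    rw [map_sum, Finset.sum_mul_sum]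
    apply sum_congr rfl
    intro m hm
    apply sum_congr rfl
    intro n hn
    rw [cpow_eq m (mem_Icc.1 hm).1, cpow_eq n (mem_Icc.1 hn).1, map_mul, ← Complex.exp_conj,
      ← Complex.exp_conj]
    have h2 : (starRingEnd ℂ) (((-((t₀ + lam * ((t:ℝ) - t')) * Real.log n) : ℝ) : ℂ) * Complex.I) =
        (((t₀ + lam * ((t:ℝ) - t')) * Real.log n : ℝ) : ℂ) * Complex.I := by
      rw [map_mul, Complex.conj_ofReal, Complex.conj_I]
      push_cast; ring
    have h2' : (starRingEnd ℂ) (((lam * (Real.log n - Real.log m) * t' : ℝ) : ℂ) * Complex.I) =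
        ((-(lam * (Real.log n - Real.log m) * t') : ℝ) : ℂ) * Complex.I := by
      rw [map_mul, Complex.conj_ofReal, Complex.conj_I]
      push_cast; ring
    rw [h2, h2']
    have h3 : Complex.exp (((-((t₀ + lam * ((t:ℝ) - t')) * Real.log m) : ℝ) : ℂ) * Complex.I) *
        Complex.exp ((((t₀ + lam * ((t:ℝ) - t')) * Real.log n : ℝ) : ℂ) * Complex.I) =
        Complex.exp ((t₀ * (Real.log n - Real.log m) : ℝ) * Complex.I) *
        (Complex.exp ((lam * (Real.log n - Real.log m) * t : ℝ) * Complex.I) *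
          Complex.exp (((-(lam * (Real.log n - Real.log m) * t') : ℝ) : ℂ) * Complex.I)) := by
      rw [← Complex.exp_add, ← Complex.exp_add, ← Complex.exp_add]
      congr 1
      push_cast
      ring
    calc a m * Complex.exp (((-((t₀ + lam * ((t:ℝ) - t')) * Real.log m) : ℝ) : ℂ) * Complex.I) *
          ((starRingEnd ℂ) (a n) *
            Complex.exp ((((t₀ + lam * ((t:ℝ) - t')) * Real.log n : ℝ) : ℂ) * Complex.I))
        = a m * (starRingEnd ℂ) (a n) *
          (Complex.exp (((-((t₀ + lam * ((t:ℝ) - t')) * Real.log m) : ℝ) : ℂ) * Complex.I) *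
          Complex.exp ((((t₀ + lam * ((t:ℝ) - t')) * Real.log n : ℝ) : ℂ) * Complex.I)) := by ring
      _ = _ := by rw [h3]; ring
  have h4 : ((∑ t ∈ T, ∑ t' ∈ T, ‖DP N a (t₀ + lam * ((t:ℝ) - t'))‖ ^ 2 : ℝ) : ℂ) =
      ∑ m ∈ Icc 1 N, ∑ n ∈ Icc 1 N, (a m * (starRingEnd ℂ) (a n) *
        Complex.exp ((t₀ * (Real.log n - Real.log m) : ℝ) * Complex.I)) *
        ∑ t ∈ T, ∑ t' ∈ T, (Complex.exp ((lam * (Real.log n - Real.log m) * t : ℝ) * Complex.I) *
          (starRingEnd ℂ) (Complex.exp ((lam * (Real.log n - Real.log m) * t' : ℝ) * Complex.I))) := by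
    rw [Complex.ofReal_sum]
    calc ∑ t ∈ T, ((∑ t' ∈ T, ‖DP N a (t₀ + lam * ((t:ℝ) - t'))‖ ^ 2 : ℝ) : ℂ)
        = ∑ t ∈ T, ∑ t' ∈ T, ∑ m ∈ Icc 1 N, ∑ n ∈ Icc 1 N, (a m * (starRingEnd ℂ) (a n) *
        Complex.exp ((t₀ * (Real.log n - Real.log m) : ℝ) * Complex.I)) *
        (Complex.exp ((lam * (Real.log n - Real.log m) * t : ℝ) * Complex.I) *
          (starRingEnd ℂ)
            (Complex.exp ((lam * (Real.log n - Real.log m) * t' : ℝ) * Complex.I))) := by
          apply sum_congr rfl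
          intro t ht
          rw [Complex.ofReal_sum]
          exact sum_congr rfl (fun t' ht' => hterm t ht t' ht')
      _ = ∑ m ∈ Icc 1 N, ∑ n ∈ Icc 1 N, ∑ t ∈ T, ∑ t' ∈ T, (a m * (starRingEnd ℂ) (a n) *
        Complex.exp ((t₀ * (Real.log n - Real.log m) : ℝ) * Complex.I)) *
        (Complex.exp ((lam * (Real.log n - Real.log m) * t : ℝ) * Complex.I) *
          (starRingEnd ℂ)
            (Complex.exp ((lam * (Real.log n - Real.log m) * t' : ℝ) * Complex.I))) := by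
          rw [sum_congr rfl (fun t _ => sum_comm), sum_comm]
          apply sum_congr rfl
          intro m _
          rw [sum_congr rfl (fun t _ => sum_comm), sum_comm]
      _ = _ := by
          apply sum_congr rfl
          intro m _
          apply sum_congr rfl
          intro n _
          rw [mul_sum]
          apply sum_congr rfl
          intro t _
          rw [mul_sum]
  have h5 : ∑ t ∈ T, ∑ t' ∈ T, ‖DP N a (t₀ + lam * ((t:ℝ) - t'))‖ ^ 2 =
      ‖((∑ t ∈ T, ∑ t' ∈ T, ‖DP N a (t₀ + lam * ((t:ℝ) - t'))‖ ^ 2 : ℝ) : ℂ)‖ := by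
    rw [Complex.norm_real, Real.norm_eq_abs,
      abs_of_nonneg (sum_nonneg (fun _ _ => sum_nonneg (fun _ _ => by positivity)))]
  rw [h5, h4]
  unfold GS
  refine (norm_sum_le _ _).trans (sum_le_sum fun m _ => (norm_sum_le _ _).trans
    (sum_le_sum fun n _ => ?_))
  rw [norm_mul, norm_mul, norm_mul, Complex.norm_exp_ofReal_mul_I, mul_one]
  have h6 : ‖(starRingEnd ℂ) (a n)‖ ≤ 1 := by
    rw [RCLike.norm_conj]; exact ha n
  have h7 : ‖a m‖ * ‖(starRingEnd ℂ) (a n)‖ ≤ 1 := by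
    have := ha m
    nlinarith [norm_nonneg (a m), norm_nonneg ((starRingEnd ℂ) (a n))]
  have h8 : ‖∑ t ∈ T, ∑ t' ∈ T,
      (Complex.exp ((lam * (Real.log n - Real.log m) * t : ℝ) * Complex.I) *
      (starRingEnd ℂ) (Complex.exp ((lam * (Real.log n - Real.log m) * t' : ℝ) * Complex.I)))‖ =
      ∑ t ∈ T, ∑ t' ∈ T, Real.cos (lam * ((Real.log n - Real.log m) * ((t:ℝ) - t'))) := by
    rw [← sum_mul_sum, ← map_sum, Complex.mul_conj, Complex.norm_real, Real.norm_eq_abs,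
      abs_of_nonneg (Complex.normSq_nonneg _), Complex.normSq_apply]
    have hre : (∑ t ∈ T,
        Complex.exp ((lam * (Real.log n - Real.log m) * t : ℝ) * Complex.I)).re =
        ∑ t ∈ T, Real.cos (lam * (Real.log n - Real.log m) * t) := by
      rw [Complex.re_sum]
      apply sum_congr rfl
      intro t _
      rw [Complex.exp_ofReal_mul_I_re]
    have him : (∑ t ∈ T,
        Complex.exp ((lam * (Real.log n - Real.log m) * t : ℝ) * Complex.I)).im =
        ∑ t ∈ T, Real.sin (lam * (Real.log n - Real.log m) * t) := by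
      rw [Complex.im_sum]
      apply sum_congr rfl
      intro t _
      rw [Complex.exp_ofReal_mul_I_im]
    rw [hre, him]
    have := cos_sum_sq T (lam * (Real.log n - Real.log m))
    rw [← sq, ← sq, ← this]
    apply sum_congr rfl
    intro t _
    apply sum_congr rfl
    intro t' _
    congr 1
    ring
  rw [h8]
  have h9 : 0 ≤ ∑ t ∈ T, ∑ t' ∈ T,
      Real.cos (lam * ((Real.log n - Real.log m) * ((t:ℝ) - t'))) := by
    rw [← h8]; exact norm_nonneg _
  nlinarith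

end Pool.Agent.TH961.AP
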