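import Pool.Agent.TH961.AP.Gen
import Pool.Agent.TH961.AP.Count

set_option autoImplicit false

/-!
Generic dilates: reciprocal sums and the average over the dilation.
-/

namespace Pool.Agent.TH961.AP

open Finset MeasureTheory

theorem sum_inv_le (S : Finset ℕ) (hS : ∀ d ∈ S, 1 ≤ d) :
    ∑ d ∈ S, 1 / (d:ℝ) ≤ ∑ i ∈ range S.card, 1 / ((i:ℝ) + 1) := by
  classical
  induction' hk : S.card with k ih generalizing S
  · rw [card_eq_zero] at hk; simp [hk]
  · have hne : S.Nonempty := by rw [← card_pos]; omega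
    have hm : S.max' hne ∈ S := S.max'_mem hne
    have hcard : S.card ≤ S.max' hne := by
      have h1 : S ⊆ Icc 1 (S.max' hne) := fun d hd => mem_Icc.2 ⟨hS d hd, S.le_max' d hd⟩
      have h2 := card_le_card h1
      simpa using h2
    rw [← Finset.add_sum_erase S _ hm, sum_range_succ, add_comm]
    apply add_le_add
    · apply ih (S.erase (S.max' hne)) (fun d hd => hS d (mem_of_mem_erase hd))
      rw [card_erase_of_mem hm, hk]; rfl
    · apply one_div_le_one_div_of_le (by positivity)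
      have h3 : k + 1 ≤ S.max' hne := by omega
      exact_mod_cast h3

theorem sum_inv_le_log (S : Finset ℕ) (hS : ∀ d ∈ S, 1 ≤ d) :
    ∑ d ∈ S, 1 / (d:ℝ) ≤ 1 + Real.log S.card := by
  refine (sum_inv_le S hS).trans ?_
  have h := harmonic_le_one_add_log S.card
  refine le_trans (le_of_eq ?_) h
  rw [harmonic]
  push_cast
  simp [one_div]

theorem log_card_mono {a b : ℕ} (h : a ≤ b) : Real.log a ≤ Real.log b := by
  rcases Nat.eq_zero_or_pos a with h0 | h0
  · rw [h0]; simp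
    exact Real.log_natCast_nonneg b
  · exact Real.log_le_log (by exact_mod_cast h0) (by exact_mod_cast h)

theorem one_side (T : Finset ℤ) (t : ℤ) (P : ℤ → Prop) [DecidablePred P]
    (hne : ∀ x, P x → x ≠ t)
    (hinj : ∀ x y, P x → P y → (t - x).natAbs = (t - y).natAbs → x = y) :
    ∑ t' ∈ T.filter P, 1 / |(t:ℝ) - t'| ≤ 1 + Real.log T.card := by
  classical
  have h1 : ∑ t' ∈ T.filter P, 1 / |(t:ℝ) - t'| =
      ∑ d ∈ (T.filter P).image (fun x => (t - x).natAbs), 1 / (d:ℝ) := by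
    rw [sum_image]
    · apply sum_congr rfl
      intro x _
      rw [Nat.cast_natAbs]
      push_cast
      rfl
    · intro x hx y hy h
      exact hinj x y (mem_filter.1 hx).2 (mem_filter.1 hy).2 h
  rw [h1]
  refine (sum_inv_le_log _ ?_).trans ?_
  · intro d hd
    obtain ⟨x, hx, rfl⟩ := mem_image.1 hd
    have h2 := hne x (mem_filter.1 hx).2
    have h3 : t - x ≠ 0 := sub_ne_zero.2 (Ne.symm h2)
    exact Int.natAbs_pos.2 h3
  · have h4 : ((T.filter P).image (fun x => (t - x).natAbs)).card ≤ T.card :=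
      card_image_le.trans (card_filter_le _ _)
    have := log_card_mono h4
    linarith

theorem sum_int (T : Finset ℤ) (t : ℤ) :
    ∑ t' ∈ T, 1 / |(t:ℝ) - t'| ≤ 2 * (1 + Real.log T.card) := by
  classical
  have h1 := one_side T t (fun x => t < x) (fun x hx => by omega) (fun x y hx hy h => by omega)
  have h2 := one_side T t (fun x => x < t) (fun x hx => by omega) (fun x y hx hy h => by omega)
  have h3 : ∑ t' ∈ T, 1 / |(t:ℝ) - t'| = ∑ t' ∈ T.filter (fun x => t < x), 1 / |(t:ℝ) - t'| +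
      ∑ t' ∈ T.filter (fun x => x < t), 1 / |(t:ℝ) - t'| := by
    rw [sum_filter, sum_filter, ← sum_add_distrib]
    apply sum_congr rfl
    intro x _
    rcases lt_trichotomy t x with h | h | h
    · rw [if_pos h, if_neg (by omega), add_zero]
    · rw [h]; simp
    · rw [if_neg (by omega), if_pos h, zero_add]
  rw [h3]
  linarith

theorem sum_pairs (T : Finset ℤ) :
    ∑ t ∈ T, ∑ t' ∈ T, 1 / |(t:ℝ) - t'| ≤ T.card * (2 * (1 + Real.log T.card)) := by
  calc ∑ t ∈ T, ∑ t' ∈ T, 1 / |(t:ℝ) - t'| ≤ ∑ t ∈ T, 2 * (1 + Real.log T.card) :=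
        sum_le_sum (fun t _ => sum_int T t)
    _ = _ := by rw [sum_const, nsmul_eq_mul]

theorem log_inv_le {N m n : ℕ} (hm : m ∈ Icc 1 N) (hn : n ∈ Icc 1 N) :
    1 / |Real.log n - Real.log m| ≤ N * (1 / |(n:ℝ) - m|) := by
  rw [mem_Icc] at hm hn
  have hN : (0:ℝ) < N := by exact_mod_cast (by omega : 0 < N)
  have key : ∀ u v : ℕ, 1 ≤ u → u < v → v ≤ N →
      ((v:ℝ) - u) / N ≤ Real.log v - Real.log u := by
    intro u v hu huv hv
    have hu' : (0:ℝ) < u := by exact_mod_cast hu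
    have hv' : (0:ℝ) < v := by exact_mod_cast (by omega : 0 < v)
    have h1 := Real.log_le_sub_one_of_pos (x := (u:ℝ) / v) (by positivity)
    rw [Real.log_div hu'.ne' hv'.ne'] at h1
    have h2 : (u:ℝ) ≤ v := by exact_mod_cast huv.le
    have h3 : ((v:ℝ) - u) / N ≤ ((v:ℝ) - u) / v :=
      div_le_div_of_nonneg_left (by linarith) hv' (by exact_mod_cast hv)
    have h4 : ((v:ℝ) - u) / v = 1 - u / v := by field_simp
    linarith
  rcases lt_trichotomy m n with h | h | h
  · have h1 := key m n hm.1 h hn.2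
    have h2 : (0:ℝ) < n - m := by
      have : (m:ℝ) < n := by exact_mod_cast h
      linarith
    have h3 : 0 < ((n:ℝ) - m) / N := by positivity
    rw [abs_of_pos (by linarith), abs_of_pos h2]
    calc 1 / (Real.log n - Real.log m) ≤ 1 / (((n:ℝ) - m) / N) :=
          one_div_le_one_div_of_le h3 h1
      _ = _ := by field_simp
  · rw [h]; simp
  · have h1 := key n m hn.1 h hm.2
    have h2 : (0:ℝ) < m - n := by
      have : (n:ℝ) < m := by exact_mod_cast h
      linarith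
    have h3 : 0 < ((m:ℝ) - n) / N := by positivity
    rw [abs_sub_comm, abs_sub_comm (n:ℝ), abs_of_pos (by linarith), abs_of_pos h2]
    calc 1 / (Real.log m - Real.log n) ≤ 1 / (((m:ℝ) - n) / N) :=
          one_div_le_one_div_of_le h3 h1
      _ = _ := by field_simp

theorem sum_logs (N : ℕ) :
    ∑ m ∈ Icc 1 N, ∑ n ∈ Icc 1 N, 1 / |Real.log n - Real.log m| ≤
      2 * (N:ℝ) ^ 2 * (1 + Real.log N) := by
  classical
  have h1 : ∑ m ∈ Icc 1 N, ∑ n ∈ Icc 1 N, 1 / |Real.log n - Real.log m| ≤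
      N * ∑ m ∈ Icc 1 N, ∑ n ∈ Icc 1 N, 1 / |(n:ℝ) - m| := by
    rw [mul_sum]
    apply sum_le_sum
    intro m hm
    rw [mul_sum]
    apply sum_le_sum
    intro n hn
    exact log_inv_le hm hn
  have h2 := sum_pairs ((Icc 1 N).image (fun n : ℕ => (n:ℤ)))
  have hinj : Set.InjOn (fun n : ℕ => (n:ℤ)) (Icc 1 N : Finset ℕ) := by
    intro x _ y _ h
    simpa using h
  rw [card_image_of_injOn hinj, sum_image hinj] at h2
  simp_rw [sum_image hinj] at h2
  have h3 : ∑ m ∈ Icc 1 N, ∑ n ∈ Icc 1 N, 1 / |(n:ℝ) - m| =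
      ∑ x ∈ Icc 1 N, ∑ y ∈ Icc 1 N, 1 / |(((x:ℕ):ℤ):ℝ) - (((y:ℕ):ℤ):ℝ)| := by
    apply sum_congr rfl
    intro x _
    apply sum_congr rfl
    intro y _
    rw [abs_sub_comm]
    push_cast
    rfl
  rw [← h3] at h2
  simp only [Nat.card_Icc, Nat.add_sub_cancel] at h2
  calc _ ≤ _ := h1
    _ ≤ N * (N * (2 * (1 + Real.log N))) := by gcongr
    _ = _ := by ring

theorem int_cos_le (Λ c : ℝ) (_hΛ : 0 ≤ Λ) :
    ∫ x in Λ..(2*Λ), Real.cos (x * c) ≤ (if c = 0 then Λ else 0) + 2 / |c| := by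
  by_cases h : c = 0
  · rw [h]; simp; linarith
  · rw [if_neg h, zero_add, intervalIntegral.integral_comp_mul_right (fun x => Real.cos x) h,
      integral_cos, smul_eq_mul]
    have h1 : |c⁻¹ * (Real.sin (2 * Λ * c) - Real.sin (Λ * c))| ≤ 2 / |c| := by
      rw [abs_mul, abs_inv, div_eq_inv_mul]
      apply mul_le_mul_of_nonneg_left _ (by positivity)
      have a1 := abs_le.1 (Real.abs_sin_le_one (2 * Λ * c))
      have a2 := abs_le.1 (Real.abs_sin_le_one (Λ * c))
      rw [abs_le]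
      constructor <;> linarith
    exact (le_abs_self _).trans h1

theorem log_ne {N m n : ℕ} (hm : m ∈ Icc 1 N) (hn : n ∈ Icc 1 N)
    (h : Real.log n - Real.log m = 0) : m = n := by
  rw [mem_Icc] at hm hn
  have h1 : Real.log n = Real.log m := by linarith
  have h2 := Real.log_injOn_pos (by simp; omega) (by simp; omega) h1
  exact_mod_cast h2.symm

theorem int_GS (N : ℕ) (T : Finset ℤ) (Λ : ℝ) (hΛ : 1 ≤ Λ) :
    ∫ x in Λ..(2*Λ), GS N T x ≤
      Λ * (T.card * (N * T.card + 9 * (N:ℝ) ^ 2 * (1 + Real.log T.card) * (1 + Real.log N))) := by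
  classical
  have hΛ0 : 0 ≤ Λ := by linarith
  have hcont : ∀ c : ℝ, IntervalIntegrable (fun x => Real.cos (x * c)) volume Λ (2*Λ) := by
    intro c
    apply Continuous.intervalIntegrable
    fun_prop
  have h1 : ∫ x in Λ..(2*Λ), GS N T x = ∑ m ∈ Icc 1 N, ∑ n ∈ Icc 1 N, ∑ t ∈ T, ∑ t' ∈ T,
      ∫ x in Λ..(2*Λ), Real.cos (x * ((Real.log n - Real.log m) * ((t:ℝ) - t'))) := by
    unfold GS
    rw [intervalIntegral.integral_finsetSum]
    · apply sum_congr rfl
      intro m _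
      rw [intervalIntegral.integral_finsetSum]
      · apply sum_congr rfl
        intro n _
        rw [intervalIntegral.integral_finsetSum]
        · apply sum_congr rfl
          intro t _
          rw [intervalIntegral.integral_finsetSum]
          intro t' _
          exact hcont _
        · intro t _
          apply Continuous.intervalIntegrable
          fun_prop
      · intro n _
        apply Continuous.intervalIntegrable
        fun_prop
    · intro m _
      apply Continuous.intervalIntegrable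
      fun_prop
  rw [h1]
  have h2 : ∀ m ∈ Icc 1 N, ∀ n ∈ Icc 1 N, ∀ t ∈ T, ∀ t' ∈ T,
      ∫ x in Λ..(2*Λ), Real.cos (x * ((Real.log n - Real.log m) * ((t:ℝ) - t'))) ≤
      (if m = n then Λ else 0) + (if t = t' then Λ else 0) +
        2 * (1 / |Real.log n - Real.log m| * (1 / |(t:ℝ) - t'|)) := by
    intro m hm n hn t _ t' _
    refine (int_cos_le Λ _ hΛ0).trans ?_
    have e1 : 2 / |(Real.log n - Real.log m) * ((t:ℝ) - t')| =
        2 * (1 / |Real.log n - Real.log m| * (1 / |(t:ℝ) - t'|)) := by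
      rw [abs_mul, div_eq_mul_inv, mul_inv, one_div, one_div]
    rw [e1]
    have e2 : (if (Real.log n - Real.log m) * ((t:ℝ) - t') = 0 then Λ else 0) ≤
        (if m = n then Λ else 0) + (if t = t' then Λ else 0) := by
      by_cases hc : (Real.log n - Real.log m) * ((t:ℝ) - t') = 0
      · rw [if_pos hc]
        rcases mul_eq_zero.1 hc with h | h
        · rw [if_pos (log_ne hm hn h)]
          split_ifs <;> linarith
        · have : t = t' := by
            have h' : (t:ℝ) = t' := by linarith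
            exact_mod_cast h'
          rw [if_pos this]
          split_ifs <;> linarith
      · rw [if_neg hc]
        split_ifs <;> linarith
    linarith
  have h3 := sum_le_sum (fun m hm => sum_le_sum (fun n hn => sum_le_sum (fun t ht =>
    sum_le_sum (fun t' ht' => h2 m hm n hn t ht t' ht'))))
  refine h3.trans ?_
  simp_rw [sum_add_distrib]
  have h4 : ∑ m ∈ Icc 1 N, ∑ n ∈ Icc 1 N, ∑ t ∈ T, ∑ t' ∈ T, (if m = n then Λ else 0) =
      Λ * (N * (T.card:ℝ) ^ 2) := by
    simp only [sum_const, nsmul_eq_mul, mul_ite, mul_zero, sum_ite_eq]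
    rw [sum_congr rfl (fun m hm => if_pos hm), sum_const, nsmul_eq_mul]
    simp only [Nat.card_Icc, Nat.add_sub_cancel]
    ring
  have h5 : ∑ m ∈ Icc 1 N, ∑ n ∈ Icc 1 N, ∑ t ∈ T, ∑ t' ∈ T, (if t = t' then Λ else 0) =
      Λ * ((N:ℝ) ^ 2 * T.card) := by
    simp only [sum_const, nsmul_eq_mul, sum_ite_eq]
    rw [sum_congr rfl (fun t ht => if_pos ht), sum_const, nsmul_eq_mul]
    simp only [Nat.card_Icc, Nat.add_sub_cancel]
    ring
  have h6 : ∑ m ∈ Icc 1 N, ∑ n ∈ Icc 1 N, ∑ t ∈ T, ∑ t' ∈ T,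
      2 * (1 / |Real.log n - Real.log m| * (1 / |(t:ℝ) - t'|)) =
      2 * ((∑ m ∈ Icc 1 N, ∑ n ∈ Icc 1 N, 1 / |Real.log n - Real.log m|) *
        ∑ t ∈ T, ∑ t' ∈ T, 1 / |(t:ℝ) - t'|) := by
    rw [sum_mul, mul_sum]
    apply sum_congr rfl
    intro m _
    rw [sum_mul, mul_sum]
    apply sum_congr rfl
    intro n _
    rw [mul_sum, mul_sum]
    apply sum_congr rfl
    intro t _
    rw [mul_sum, mul_sum]
  rw [h4, h5, h6]
  have h7 := sum_logs N
  have h8 := sum_pairs T
  have h9 : 0 ≤ ∑ t ∈ T, ∑ t' ∈ T, 1 / |(t:ℝ) - t'| :=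
    sum_nonneg (fun _ _ => sum_nonneg (fun _ _ => by positivity))
  have h10 : 0 ≤ Real.log T.card := Real.log_natCast_nonneg _
  have h11 : 0 ≤ Real.log N := Real.log_natCast_nonneg _
  have h12 : (∑ m ∈ Icc 1 N, ∑ n ∈ Icc 1 N, 1 / |Real.log n - Real.log m|) *
        ∑ t ∈ T, ∑ t' ∈ T, 1 / |(t:ℝ) - t'| ≤
      (2 * (N:ℝ) ^ 2 * (1 + Real.log N)) * (T.card * (2 * (1 + Real.log T.card))) :=
    mul_le_mul h7 h8 h9 (by positivity)
  set a : ℝ := (T.card:ℝ) with ha
  have ha0 : 0 ≤ a := by positivity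
  set L : ℝ := (1 + Real.log a) * (1 + Real.log N) with hL
  have hL1 : 1 ≤ L := by
    rw [hL]; nlinarith
  have h13 : 0 ≤ (N:ℝ) ^ 2 * a := by positivity
  calc Λ * (N * a ^ 2) + Λ * ((N:ℝ) ^ 2 * a) + 2 * ((∑ m ∈ Icc 1 N, ∑ n ∈ Icc 1 N,
        1 / |Real.log n - Real.log m|) * ∑ t ∈ T, ∑ t' ∈ T, 1 / |(t:ℝ) - t'|)
      ≤ Λ * (N * a ^ 2) + Λ * ((N:ℝ) ^ 2 * a) + 2 * ((2 * (N:ℝ) ^ 2 * (1 + Real.log N)) *
        (a * (2 * (1 + Real.log a)))) := by linarith
    _ = Λ * (N * a ^ 2) + Λ * ((N:ℝ) ^ 2 * a) + 8 * (((N:ℝ) ^ 2 * a) * L) := by rw [hL]; ring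
    _ ≤ Λ * (N * a ^ 2) + Λ * (((N:ℝ) ^ 2 * a) * L) + Λ * (8 * (((N:ℝ) ^ 2 * a) * L)) := by
        have e1 : Λ * ((N:ℝ) ^ 2 * a) ≤ Λ * (((N:ℝ) ^ 2 * a) * L) := by
          apply mul_le_mul_of_nonneg_left _ hΛ0
          nlinarith
        have e2 : 8 * (((N:ℝ) ^ 2 * a) * L) ≤ Λ * (8 * (((N:ℝ) ^ 2 * a) * L)) := by
          have : 0 ≤ 8 * (((N:ℝ) ^ 2 * a) * L) := by positivity
          nlinarith
        linarith
    _ = _ := by rw [hL]; ring

end Pool.Agent.TH961.AP
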