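import Pool.Agent.TH961.AP.Gen2
import Pool.Agent.H217R3.AK.Bsg

set_option autoImplicit false

/-!
Generic dilates: exceptional set, sets of small doubling and of large additive energy.
-/

namespace Pool.Agent.TH961.AP

open Finset MeasureTheory
open scoped Pointwise

theorem GS_cont (N : ℕ) (T : Finset ℤ) : Continuous (GS N T) := by
  unfold GS
  fun_prop

theorem exc (N : ℕ) (T : Finset ℤ) (Λ η B : ℝ) (hΛ : 1 ≤ Λ) (hη : 0 < η) (hB : 0 < B)
    (hint : ∫ x in Λ..(2*Λ), GS N T x ≤ Λ * B) :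
    volume {x | x ∈ Set.Icc Λ (2*Λ) ∧ B / η ≤ GS N T x} ≤ ENNReal.ofReal (η * Λ) := by
  have hle : Λ ≤ 2 * Λ := by linarith
  have hI : Integrable (GS N T) (volume.restrict (Set.Icc Λ (2*Λ))) :=
    (GS_cont N T).continuousOn.integrableOn_compact isCompact_Icc
  have h1 := mul_meas_ge_le_integral_of_nonneg (μ := volume.restrict (Set.Icc Λ (2*Λ)))
    (f := GS N T) (Filter.Eventually.of_forall (fun x => GS_nonneg N T x)) hI (B / η)
  have h2 : ∫ x in Set.Icc Λ (2*Λ), GS N T x = ∫ x in Λ..(2*Λ), GS N T x := by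
    rw [intervalIntegral.integral_of_le hle, integral_Icc_eq_integral_Ioc]
  rw [h2] at h1
  have hmeas : MeasurableSet {x | B / η ≤ GS N T x} :=
    measurableSet_le measurable_const (GS_cont N T).measurable
  have h3 : volume {x | x ∈ Set.Icc Λ (2*Λ) ∧ B / η ≤ GS N T x} =
      (volume.restrict (Set.Icc Λ (2*Λ))) {x | B / η ≤ GS N T x} := by
    rw [Measure.restrict_apply hmeas]
    congr 1
    ext x
    simp only [Set.mem_ofPred_eq, Set.mem_inter_iff]
    tauto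
  rw [h3]
  have hfin : (volume.restrict (Set.Icc Λ (2*Λ))) {x | B / η ≤ GS N T x} ≠ ⊤ :=
    measure_ne_top (volume.restrict (Set.Icc Λ (2*Λ))) _
  rw [← ENNReal.ofReal_toReal hfin]
  apply ENNReal.ofReal_le_ofReal
  have h4 : B / η * (volume.restrict (Set.Icc Λ (2*Λ))).real {x | B / η ≤ GS N T x} ≤ Λ * B :=
    h1.trans hint
  have h5 : (volume.restrict (Set.Icc Λ (2*Λ))).real {x | B / η ≤ GS N T x} ≤ η * Λ := by
    have h6 : B * ((volume.restrict (Set.Icc Λ (2*Λ))).real {x | B / η ≤ GS N T x}) ≤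
        B * (η * Λ) := by
      calc B * ((volume.restrict (Set.Icc Λ (2*Λ))).real {x | B / η ≤ GS N T x}) =
          η * (B / η * (volume.restrict (Set.Icc Λ (2*Λ))).real {x | B / η ≤ GS N T x}) := by
            field_simp
        _ ≤ η * (Λ * B) := by gcongr
        _ = _ := by ring
    exact le_of_mul_le_mul_left h6 hB
  exact h5

/-- popularity: every `s ∈ A` is, up to a fixed translation, a difference of `|A|` pairs from
`A - A` -/
theorem popular (N : ℕ) (A : Finset ℤ) (hA : A.Nonempty) (lam t₀ : ℝ) (a : ℕ → ℂ)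
    (ha : ∀ n, ‖a n‖ ≤ 1) :
    A.card * ∑ s ∈ A, ‖DP N a (t₀ + lam * s)‖ ^ 2 ≤ GS N (A - A) lam := by
  classical
  obtain ⟨u, hu⟩ := hA
  have h1 := diff_sum N (A - A) lam (t₀ + lam * u) a ha
  refine le_trans ?_ h1
  rw [← sum_product']
  have hinj : Set.InjOn (fun p : ℤ × ℤ => (p.1 - p.2, u - p.2)) (A ×ˢ A : Finset (ℤ × ℤ)) := by
    rintro ⟨x, y⟩ _ ⟨x', y'⟩ _ h
    simp only [Prod.mk.injEq] at h
    obtain ⟨h1, h2⟩ := h
    have e1 : y = y' := by omega
    have e2 : x = x' := by omega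
    rw [e1, e2]
  have hsub : (A ×ˢ A).image (fun p : ℤ × ℤ => (p.1 - p.2, u - p.2)) ⊆ (A - A) ×ˢ (A - A) := by
    intro q hq
    obtain ⟨⟨x, y⟩, hxy, rfl⟩ := mem_image.1 hq
    rw [mem_product] at hxy
    rw [mem_product]
    exact ⟨sub_mem_sub hxy.1 hxy.2, sub_mem_sub hu hxy.2⟩
  have h2 : ∑ q ∈ (A ×ˢ A).image (fun p : ℤ × ℤ => (p.1 - p.2, u - p.2)),
      ‖DP N a (t₀ + lam * u + lam * ((q.1:ℝ) - q.2))‖ ^ 2 ≤
      ∑ q ∈ (A - A) ×ˢ (A - A), ‖DP N a (t₀ + lam * u + lam * ((q.1:ℝ) - q.2))‖ ^ 2 :=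
    sum_le_sum_of_subset_of_nonneg hsub (fun _ _ _ => by positivity)
  refine le_trans (le_of_eq ?_) h2
  rw [sum_image hinj, sum_product, mul_sum]
  apply sum_congr rfl
  intro x _
  have h3 : ∀ y ∈ A, ‖DP N a (t₀ + lam * u + lam * (((x - y : ℤ):ℝ) - ((u - y : ℤ):ℝ)))‖ ^ 2 =
      ‖DP N a (t₀ + lam * x)‖ ^ 2 := by
    intro y _
    congr 3
    push_cast
    ring
  rw [sum_congr rfl h3, sum_const, nsmul_eq_mul]

/-- generic dilates of a set of small doubling: mean square bound off one exceptional set -/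
theorem small_doubling (N : ℕ) (hN : 1 ≤ N) (A : Finset ℤ) (hA : A.Nonempty) (K Λ η : ℝ)
    (hΛ : 1 ≤ Λ) (hη : 0 < η) (hK : ((A - A).card : ℝ) ≤ K * A.card) :
    volume {x | x ∈ Set.Icc Λ (2*Λ) ∧ ¬ ∀ (a : ℕ → ℂ) (t₀ : ℝ), (∀ n, ‖a n‖ ≤ 1) →
      ∑ s ∈ A, ‖DP N a (t₀ + x * s)‖ ^ 2 ≤ K / η * (K * N * A.card +
        9 * (N:ℝ) ^ 2 * (1 + Real.log (K * A.card)) * (1 + Real.log N))} ≤
      ENNReal.ofReal (η * Λ) := by
  classical
  have hA1 : (1:ℝ) ≤ A.card := by exact_mod_cast hA.card_pos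
  have hA0 : (0:ℝ) < A.card := by linarith
  have hAA : A.card ≤ (A - A).card := by
    obtain ⟨u, hu⟩ := hA
    calc A.card = (A - {u}).card := by
          rw [sub_singleton]
          exact (card_image_of_injective _ (sub_left_injective)).symm
      _ ≤ _ := card_le_card (sub_subset_sub_left (singleton_subset_iff.2 hu))
  have hAA' : (A.card:ℝ) ≤ (A - A).card := by exact_mod_cast hAA
  set T := A - A with hT
  have hT0 : (0:ℝ) < T.card := by linarith
  have hT1 : (1:ℝ) ≤ T.card := by linarith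
  have hNr : (1:ℝ) ≤ N := by exact_mod_cast hN
  have hlT : 0 ≤ Real.log T.card := Real.log_nonneg hT1
  have hlN : 0 ≤ Real.log N := Real.log_nonneg hNr
  set B : ℝ := T.card * (N * T.card + 9 * (N:ℝ) ^ 2 * (1 + Real.log T.card) * (1 + Real.log N))
    with hB
  have hB0 : 0 < B := by positivity
  have hint := int_GS N T Λ hΛ
  rw [← hB] at hint
  have h1 := exc N T Λ η B hΛ hη hB0 hint
  refine le_trans (measure_mono ?_) h1
  rintro x ⟨hx1, hx2⟩
  refine ⟨hx1, ?_⟩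
  by_contra hlt
  rw [not_le] at hlt
  apply hx2
  intro a t₀ ha
  have h2 := popular N A hA x t₀ a ha
  rw [← hT] at h2
  have h3 : A.card * ∑ s ∈ A, ‖DP N a (t₀ + x * s)‖ ^ 2 ≤ B / η := h2.trans hlt.le
  have hK0 : 0 < K := by
    by_contra h
    have : K * A.card ≤ 0 := mul_nonpos_of_nonpos_of_nonneg (not_lt.1 h) hA0.le
    linarith
  have h4 : B ≤ K * A.card * (K * N * A.card +
        9 * (N:ℝ) ^ 2 * (1 + Real.log (K * A.card)) * (1 + Real.log N)) := by
    rw [hB]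
    have hlog : Real.log T.card ≤ Real.log (K * A.card) := Real.log_le_log hT0 hK
    apply mul_le_mul hK _ (by positivity) (by positivity)
    apply add_le_add
    · calc (N:ℝ) * T.card ≤ N * (K * A.card) := by gcongr
        _ = _ := by ring
    · gcongr
  have h5 : A.card * ∑ s ∈ A, ‖DP N a (t₀ + x * s)‖ ^ 2 ≤ A.card * (K / η * (K * N * A.card +
        9 * (N:ℝ) ^ 2 * (1 + Real.log (K * A.card)) * (1 + Real.log N))) := by
    calc _ ≤ B / η := h3
      _ ≤ (K * A.card * (K * N * A.card +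
        9 * (N:ℝ) ^ 2 * (1 + Real.log (K * A.card)) * (1 + Real.log N))) / η := by gcongr
      _ = _ := by ring
  exact le_of_mul_le_mul_left h5 hA0

/-- generic dilates of a set of large additive energy: large values -/
theorem large_energy (N : ℕ) (hN : 1 ≤ N) (S : Finset ℤ) (K Λ η : ℝ) (hK1 : 1 ≤ K)
    (hΛ : 1 ≤ Λ) (hη : 0 < η) (hE : (S.card : ℝ) ^ 3 ≤ K * (S.addEnergy S : ℕ)) :
    volume {x | x ∈ Set.Icc Λ (2*Λ) ∧ ¬ ∀ (a : ℕ → ℂ) (t₀ V : ℝ), (∀ n, ‖a n‖ ≤ 1) →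
      0 < V → 2 ^ 45 * K ^ 20 * N ≤ η * V ^ 2 →
      (∀ s ∈ S, V ≤ ‖DP N a (t₀ + x * s)‖) →
      (S.card:ℝ) ≤ 2 ^ 34 * K ^ 11 / η * ((N:ℝ) ^ 2 / V ^ 2) * (1 + Real.log (K * S.card)) *
        (1 + Real.log N)} ≤ ENNReal.ofReal (η * Λ) := by
  classical
  rcases S.eq_empty_or_nonempty with hS | hS
  · -- trivial
    have : {x | x ∈ Set.Icc Λ (2*Λ) ∧ ¬ ∀ (a : ℕ → ℂ) (t₀ V : ℝ), (∀ n, ‖a n‖ ≤ 1) →
      0 < V → 2 ^ 45 * K ^ 20 * N ≤ η * V ^ 2 →
      (∀ s ∈ S, V ≤ ‖DP N a (t₀ + x * s)‖) →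
      (S.card:ℝ) ≤ 2 ^ 34 * K ^ 11 / η * ((N:ℝ) ^ 2 / V ^ 2) * (1 + Real.log (K * S.card)) *
        (1 + Real.log N)} = ∅ := by
      ext x
      simp only [Set.mem_ofPred_eq, Set.mem_empty_iff_false, iff_false, not_and, not_not]
      intro _ a t₀ V _ hV _ _
      rw [hS]
      simp only [card_empty, Nat.cast_zero, mul_zero, Real.log_zero, add_zero, mul_one]
      have : 0 ≤ Real.log N := Real.log_natCast_nonneg N
      positivity
    rw [this, measure_empty]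
    simp
  · have hK0 : 0 < K := by linarith
    obtain ⟨B, hBS, hBne, hB1, hB2⟩ := Pool.Agent.H217R3.AK.bsg S hS K hK0 hE
    have h1 := small_doubling N hN B hBne (2 ^ 22 * K ^ 10) Λ η hΛ hη hB2
    refine le_trans (measure_mono ?_) h1
    rintro x ⟨hx1, hx2⟩
    refine ⟨hx1, ?_⟩
    intro hall
    apply hx2
    intro a t₀ V ha hV hVN hlarge
    have h2 := hall a t₀ ha
    have hB0 : (0:ℝ) < B.card := by exact_mod_cast hBne.card_pos
    have hB11 : (1:ℝ) ≤ B.card := by exact_mod_cast hBne.card_pos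
    have hBS' : (B.card:ℝ) ≤ S.card := by exact_mod_cast card_le_card hBS
    have h3 : (B.card:ℝ) * V ^ 2 ≤ ∑ s ∈ B, ‖DP N a (t₀ + x * s)‖ ^ 2 := by
      calc (B.card:ℝ) * V ^ 2 = ∑ s ∈ B, V ^ 2 := by rw [sum_const, nsmul_eq_mul]
        _ ≤ _ := sum_le_sum (fun s hs => by
            have := hlarge s (hBS hs)
            gcongr)
    have hNr : (1:ℝ) ≤ N := by exact_mod_cast hN
    have hlN : 0 ≤ Real.log N := Real.log_nonneg hNr
    have hK10 : (1:ℝ) ≤ K ^ 10 := one_le_pow₀ hK1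
    set Q : ℝ := 2 ^ 22 * K ^ 10 with hQ
    have hQ1 : 1 ≤ Q := by rw [hQ]; nlinarith
    have hQ0 : 0 < Q := by linarith
    have hS1 : (1:ℝ) ≤ S.card := by linarith
    have hKS : 1 ≤ K * S.card := by nlinarith
    have hlKS : 0 ≤ Real.log (K * S.card) := Real.log_nonneg hKS
    -- the logarithm
    have hlog : 1 + Real.log (Q * B.card) ≤ 17 * (1 + Real.log (K * S.card)) := by
      have e1 : Real.log (Q * B.card) ≤ Real.log (2 ^ 22 * (K * S.card) ^ 10) := by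
        apply Real.log_le_log (by positivity)
        rw [hQ, mul_pow]
        have : (B.card:ℝ) ≤ (S.card:ℝ) ^ 10 := by
          calc (B.card:ℝ) ≤ S.card := hBS'
            _ = (S.card:ℝ) ^ 1 := by ring
            _ ≤ (S.card:ℝ) ^ 10 := pow_le_pow_right₀ hS1 (by norm_num)
        calc 2 ^ 22 * K ^ 10 * (B.card:ℝ) ≤ 2 ^ 22 * K ^ 10 * (S.card:ℝ) ^ 10 := by gcongr
          _ = _ := by ring
      have e2 : Real.log (2 ^ 22 * (K * S.card) ^ 10) =
          22 * Real.log 2 + 10 * Real.log (K * S.card) := by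
        rw [Real.log_mul (by positivity) (by positivity), Real.log_pow, Real.log_pow]
        norm_num
      have e3 := Real.log_two_lt_d9
      linarith
    have hlQB : 0 ≤ Real.log (Q * B.card) := Real.log_nonneg (by nlinarith)
    -- absorb
    have h4 : (B.card:ℝ) * V ^ 2 ≤ Q / η * (Q * N * B.card) +
        Q / η * (9 * (N:ℝ) ^ 2 * (1 + Real.log (Q * B.card)) * (1 + Real.log N)) := by
      calc _ ≤ _ := h3.trans h2
        _ = _ := by ring
    have h5 : Q / η * (Q * N * B.card) ≤ (B.card:ℝ) * V ^ 2 / 2 := by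
      have e1 : 2 * Q ^ 2 * N ≤ η * V ^ 2 := by
        refine le_trans (le_of_eq ?_) hVN
        rw [hQ]; ring
      have e2 : Q / η * (Q * N * B.card) = (2 * Q ^ 2 * N) / η * (B.card / 2) := by
        field_simp
      rw [e2]
      have e3 : (2 * Q ^ 2 * N) / η ≤ V ^ 2 := by
        rw [div_le_iff₀ hη]; linarith
      calc (2 * Q ^ 2 * N) / η * (B.card / 2) ≤ V ^ 2 * (B.card / 2) := by gcongr
        _ = _ := by ring
    have h6 : (B.card:ℝ) * V ^ 2 ≤ 18 * Q / η * ((N:ℝ) ^ 2 * (17 * (1 + Real.log (K * S.card))) *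
        (1 + Real.log N)) := by
      have e1 : Q / η * (9 * (N:ℝ) ^ 2 * (1 + Real.log (Q * B.card)) * (1 + Real.log N)) ≤
          Q / η * (9 * (N:ℝ) ^ 2 * (17 * (1 + Real.log (K * S.card))) * (1 + Real.log N)) := by
        gcongr
      calc (B.card:ℝ) * V ^ 2 ≤ 2 * (Q / η * (9 * (N:ℝ) ^ 2 * (17 * (1 + Real.log (K * S.card))) *
            (1 + Real.log N))) := by linarith
        _ = _ := by ring
    have hV2 : 0 < V ^ 2 := by positivity
    calc (S.card:ℝ) ≤ 8 * K * B.card := hB1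
      _ = 8 * K * ((B.card:ℝ) * V ^ 2) / V ^ 2 := by field_simp
      _ ≤ 8 * K * (18 * Q / η * ((N:ℝ) ^ 2 * (17 * (1 + Real.log (K * S.card))) *
        (1 + Real.log N))) / V ^ 2 := by gcongr
      _ = 2448 * 2 ^ 22 * K ^ 11 / η * ((N:ℝ) ^ 2 / V ^ 2) * (1 + Real.log (K * S.card)) *
        (1 + Real.log N) := by rw [hQ]; ring
      _ ≤ 2 ^ 34 * K ^ 11 / η * ((N:ℝ) ^ 2 / V ^ 2) * (1 + Real.log (K * S.card)) *
        (1 + Real.log N) := by
          gcongr
          norm_num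

end Pool.Agent.TH961.AP
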