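import Pool.Agent.TH961.AP.GenR

set_option autoImplicit false

/-!
The double sum over differences for generic dilates of an arbitrary `1`-separated set.
-/

namespace Pool.Agent.TH961.AP

open Finset MeasureTheory

theorem one_sideR (T : Finset ℝ) (t : ℝ) (F : Finset ℝ) (hF : F ⊆ T)
    (h1 : ∀ x ∈ F, 1 ≤ |t - x|)
    (h2 : ∀ x ∈ F, ∀ y ∈ F, x ≠ y → 1 ≤ |(|t - x| - |t - y|)|) :
    ∑ x ∈ F, 1 / |t - x| ≤ 1 + Real.log T.card := by
  classical
  have hinj : Set.InjOn (fun x => ⌊|t - x|⌋₊) F := by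
    intro x hx y hy h
    by_contra hne
    have h3 := h2 x hx y hy hne
    have a1 := Nat.floor_le (abs_nonneg (t - x))
    have a2 := Nat.lt_floor_add_one (|t - x|)
    have b1 := Nat.floor_le (abs_nonneg (t - y))
    have b2 := Nat.lt_floor_add_one (|t - y|)
    simp only at h
    rw [h] at a1 a2
    have h4 : |(|t - x| - |t - y|)| < 1 := by
      rw [abs_lt]; constructor <;> linarith
    linarith
  have hle : ∀ x ∈ F, 1 / |t - x| ≤ 1 / ((⌊|t - x|⌋₊ : ℕ) : ℝ) := by
    intro x hx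
    have h3 : 1 ≤ ⌊|t - x|⌋₊ := by
      rw [Nat.one_le_floor_iff]
      exact h1 x hx
    apply one_div_le_one_div_of_le (by exact_mod_cast h3)
    exact Nat.floor_le (abs_nonneg _)
  have h5 : ∑ x ∈ F, 1 / ((⌊|t - x|⌋₊ : ℕ) : ℝ) =
      ∑ d ∈ F.image (fun x => ⌊|t - x|⌋₊), 1 / (d:ℝ) := by
    rw [sum_image hinj]
  refine (sum_le_sum hle).trans ?_
  rw [h5]
  refine (sum_inv_le_log _ ?_).trans ?_
  · intro d hd
    obtain ⟨x, hx, rfl⟩ := mem_image.1 hd
    rw [Nat.one_le_floor_iff]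
    exact h1 x hx
  · have h4 : (F.image (fun x => ⌊|t - x|⌋₊)).card ≤ T.card :=
      card_image_le.trans (card_le_card hF)
    have := log_card_mono h4
    linarith

theorem sum_real (T : Finset ℝ) (hT : ∀ s ∈ T, ∀ t ∈ T, s ≠ t → 1 ≤ |s - t|) (t : ℝ)
    (ht : t ∈ T) : ∑ x ∈ T, 1 / |t - x| ≤ 2 * (1 + Real.log T.card) := by
  classical
  have h1 := one_sideR T t (T.filter (fun x => t < x)) (filter_subset _ _)
    (fun x hx => by
      rw [mem_filter] at hx
      exact hT t ht x hx.1 hx.2.ne)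
    (fun x hx y hy hne => by
      rw [mem_filter] at hx hy
      have := hT x hx.1 y hy.1 hne
      rw [abs_of_neg (by linarith : t - x < 0), abs_of_neg (by linarith : t - y < 0)]
      rw [show -(t - x) - -(t - y) = x - y by ring]
      exact this)
  have h2 := one_sideR T t (T.filter (fun x => x < t)) (filter_subset _ _)
    (fun x hx => by
      rw [mem_filter] at hx
      exact hT t ht x hx.1 hx.2.ne')
    (fun x hx y hy hne => by
      rw [mem_filter] at hx hy
      have := hT x hx.1 y hy.1 hne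
      rw [abs_of_pos (by linarith : 0 < t - x), abs_of_pos (by linarith : 0 < t - y)]
      rw [show t - x - (t - y) = -(x - y) by ring, abs_neg]
      exact this)
  have h3 : ∑ x ∈ T, 1 / |t - x| = ∑ x ∈ T.filter (fun x => t < x), 1 / |t - x| +
      ∑ x ∈ T.filter (fun x => x < t), 1 / |t - x| := by
    rw [sum_filter, sum_filter, ← sum_add_distrib]
    apply sum_congr rfl
    intro x _
    rcases lt_trichotomy t x with h | h | h
    · rw [if_pos h, if_neg (by linarith), add_zero]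
    · rw [h]; simp
    · rw [if_neg (by linarith), if_pos h, zero_add]
  rw [h3]
  linarith

theorem sum_pairsR (T : Finset ℝ) (hT : ∀ s ∈ T, ∀ t ∈ T, s ≠ t → 1 ≤ |s - t|) :
    ∑ t ∈ T, ∑ t' ∈ T, 1 / |t - t'| ≤ T.card * (2 * (1 + Real.log T.card)) := by
  calc ∑ t ∈ T, ∑ t' ∈ T, 1 / |t - t'| ≤ ∑ t ∈ T, 2 * (1 + Real.log T.card) :=
        sum_le_sum (fun t ht => sum_real T hT t ht)
    _ = _ := by rw [sum_const, nsmul_eq_mul]

/-- the off-diagonal part of `GR` -/
noncomputable def GO (N : ℕ) (T : Finset ℝ) (lam : ℝ) : ℝ :=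
  ∑ m ∈ Icc 1 N, ∑ n ∈ Icc 1 N, if m = n then 0 else ∑ t ∈ T, ∑ t' ∈ T,
    Real.cos (lam * ((Real.log n - Real.log m) * (t - t')))

theorem GR_eq (N : ℕ) (T : Finset ℝ) (lam : ℝ) :
    GR N T lam = N * (T.card:ℝ) ^ 2 + GO N T lam := by
  classical
  unfold GR GO
  have h : ∀ m ∈ Icc 1 N, ∀ n ∈ Icc 1 N, ∑ t ∈ T, ∑ t' ∈ T,
      Real.cos (lam * ((Real.log n - Real.log m) * (t - t'))) =
      (if m = n then (T.card:ℝ) ^ 2 else 0) + (if m = n then 0 else ∑ t ∈ T, ∑ t' ∈ T,
        Real.cos (lam * ((Real.log n - Real.log m) * (t - t')))) := by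
    intro m _ n _
    by_cases hmn : m = n
    · rw [if_pos hmn, if_pos hmn, hmn]
      simp only [sub_self, zero_mul, mul_zero, Real.cos_zero, sum_const, nsmul_eq_mul, mul_one,
        add_zero]
      ring
    · rw [if_neg hmn, if_neg hmn, zero_add]
  rw [sum_congr rfl (fun m hm => sum_congr rfl (fun n hn => h m hm n hn))]
  simp_rw [sum_add_distrib]
  congr 1
  simp only [sum_ite_eq]
  rw [sum_congr rfl (fun m hm => if_pos hm), sum_const, nsmul_eq_mul]
  simp

theorem GO_nonneg (N : ℕ) (T : Finset ℝ) (lam : ℝ) : 0 ≤ GO N T lam := by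
  unfold GO
  apply sum_nonneg
  intro m _
  apply sum_nonneg
  intro n _
  split_ifs
  · exact le_rfl
  · have := cos_sum_nonnegR T (lam * (Real.log n - Real.log m))
    refine this.trans (le_of_eq ?_)
    apply sum_congr rfl
    intro t _
    apply sum_congr rfl
    intro t' _
    congr 1
    ring

theorem GO_cont (N : ℕ) (T : Finset ℝ) : Continuous (GO N T) := by
  unfold GO
  apply continuous_finsetSum
  intro m _
  apply continuous_finsetSum
  intro n _
  split_ifs
  · exact continuous_const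
  · fun_prop

theorem int_GO (N : ℕ) (T : Finset ℝ) (hT : ∀ s ∈ T, ∀ t ∈ T, s ≠ t → 1 ≤ |s - t|) (Λ : ℝ)
    (hΛ : 1 ≤ Λ) :
    ∫ x in Λ..(2*Λ), GO N T x ≤
      Λ * (9 * (N:ℝ) ^ 2 * T.card * (1 + Real.log T.card) * (1 + Real.log N)) := by
  classical
  have hΛ0 : 0 ≤ Λ := by linarith
  have hcont : ∀ c : ℝ, IntervalIntegrable (fun x => Real.cos (x * c)) volume Λ (2*Λ) := by
    intro c
    apply Continuous.intervalIntegrable
    fun_prop
  have h1 : ∫ x in Λ..(2*Λ), GO N T x = ∑ m ∈ Icc 1 N, ∑ n ∈ Icc 1 N,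
      if m = n then 0 else ∑ t ∈ T, ∑ t' ∈ T,
      ∫ x in Λ..(2*Λ), Real.cos (x * ((Real.log n - Real.log m) * (t - t'))) := by
    unfold GO
    rw [intervalIntegral.integral_finsetSum]
    · apply sum_congr rfl
      intro m _
      rw [intervalIntegral.integral_finsetSum]
      · apply sum_congr rfl
        intro n _
        by_cases hmn : m = n
        · simp [hmn]
        · simp only [hmn, if_false]
          rw [intervalIntegral.integral_finsetSum]
          · apply sum_congr rfl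
            intro t _
            rw [intervalIntegral.integral_finsetSum]
            intro t' _
            exact hcont _
          · intro t _
            apply Continuous.intervalIntegrable
            fun_prop
      · intro n _
        apply Continuous.intervalIntegrable
        split_ifs
        · exact continuous_const
        · fun_prop
    · intro m _
      apply Continuous.intervalIntegrable
      apply continuous_finsetSum
      intro n _
      split_ifs
      · exact continuous_const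
      · fun_prop
  rw [h1]
  have h2 : ∀ m ∈ Icc 1 N, ∀ n ∈ Icc 1 N, (if m = n then (0:ℝ) else ∑ t ∈ T, ∑ t' ∈ T,
      ∫ x in Λ..(2*Λ), Real.cos (x * ((Real.log n - Real.log m) * (t - t')))) ≤
      ∑ t ∈ T, ∑ t' ∈ T, ((if t = t' then Λ else 0) +
        2 * (1 / |Real.log n - Real.log m| * (1 / |t - t'|))) := by
    intro m hm n hn
    have hnn : ∀ t t' : ℝ, 0 ≤ (if t = t' then Λ else 0) +
        2 * (1 / |Real.log n - Real.log m| * (1 / |t - t'|)) := by
      intro t t'
      split_ifs <;> positivity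
    by_cases hmn : m = n
    · rw [if_pos hmn]
      exact sum_nonneg (fun t _ => sum_nonneg (fun t' _ => hnn t t'))
    · rw [if_neg hmn]
      apply sum_le_sum
      intro t _
      apply sum_le_sum
      intro t' _
      refine (int_cos_le Λ _ hΛ0).trans ?_
      have e1 : 2 / |(Real.log n - Real.log m) * (t - t')| =
          2 * (1 / |Real.log n - Real.log m| * (1 / |t - t'|)) := by
        rw [abs_mul, div_eq_mul_inv, mul_inv, one_div, one_div]
      rw [e1]
      have e2 : (if (Real.log n - Real.log m) * (t - t') = 0 then Λ else 0) ≤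
          (if t = t' then Λ else 0) := by
        by_cases hc : (Real.log n - Real.log m) * (t - t') = 0
        · rw [if_pos hc]
          rcases mul_eq_zero.1 hc with h | h
          · exact absurd (log_ne hm hn h) hmn
          · rw [if_pos (by linarith)]
        · rw [if_neg hc]
          split_ifs <;> linarith
      linarith
  have h3 := sum_le_sum (fun m hm => sum_le_sum (fun n hn => h2 m hm n hn))
  refine h3.trans ?_
  simp_rw [sum_add_distrib]
  have h5 : ∑ m ∈ Icc 1 N, ∑ n ∈ Icc 1 N, ∑ t ∈ T, ∑ t' ∈ T, (if t = t' then Λ else 0) =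
      Λ * ((N:ℝ) ^ 2 * T.card) := by
    simp only [sum_const, nsmul_eq_mul, sum_ite_eq]
    rw [sum_congr rfl (fun t ht => if_pos ht), sum_const, nsmul_eq_mul]
    simp only [Nat.card_Icc, Nat.add_sub_cancel]
    ring
  have h6 : ∑ m ∈ Icc 1 N, ∑ n ∈ Icc 1 N, ∑ t ∈ T, ∑ t' ∈ T,
      2 * (1 / |Real.log n - Real.log m| * (1 / |t - t'|)) =
      2 * ((∑ m ∈ Icc 1 N, ∑ n ∈ Icc 1 N, 1 / |Real.log n - Real.log m|) *
        ∑ t ∈ T, ∑ t' ∈ T, 1 / |t - t'|) := by
    rw [sum_mul, mul_sum]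
    apply sum_congr rfl
    intro m _
    rw [sum_mul, mul_sum]
    apply sum_congr rfl
    intro n _
    rw [mul_sum, mul_sum]
    apply sum_congr rfl
    intro t _
    rw [mul_sum, mul_sum]
  rw [h5, h6]
  have h7 := sum_logs N
  have h8 := sum_pairsR T hT
  have h9 : 0 ≤ ∑ t ∈ T, ∑ t' ∈ T, 1 / |t - t'| :=
    sum_nonneg (fun _ _ => sum_nonneg (fun _ _ => by positivity))
  have h10 : 0 ≤ Real.log T.card := Real.log_natCast_nonneg _
  have h11 : 0 ≤ Real.log N := Real.log_natCast_nonneg _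
  have h12 : (∑ m ∈ Icc 1 N, ∑ n ∈ Icc 1 N, 1 / |Real.log n - Real.log m|) *
        ∑ t ∈ T, ∑ t' ∈ T, 1 / |t - t'| ≤
      (2 * (N:ℝ) ^ 2 * (1 + Real.log N)) * (T.card * (2 * (1 + Real.log T.card))) :=
    mul_le_mul h7 h8 h9 (by positivity)
  set a : ℝ := (T.card:ℝ) with ha
  have ha0 : 0 ≤ a := by positivity
  set L : ℝ := (1 + Real.log a) * (1 + Real.log N) with hL
  have hL1 : 1 ≤ L := by
    rw [hL]; nlinarith
  have h13 : 0 ≤ (N:ℝ) ^ 2 * a := by positivity
  calc Λ * ((N:ℝ) ^ 2 * a) + 2 * ((∑ m ∈ Icc 1 N, ∑ n ∈ Icc 1 N,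
        1 / |Real.log n - Real.log m|) * ∑ t ∈ T, ∑ t' ∈ T, 1 / |t - t'|)
      ≤ Λ * ((N:ℝ) ^ 2 * a) + 2 * ((2 * (N:ℝ) ^ 2 * (1 + Real.log N)) *
        (a * (2 * (1 + Real.log a)))) := by linarith
    _ = Λ * ((N:ℝ) ^ 2 * a) + 8 * (((N:ℝ) ^ 2 * a) * L) := by rw [hL]; ring
    _ ≤ Λ * (((N:ℝ) ^ 2 * a) * L) + Λ * (8 * (((N:ℝ) ^ 2 * a) * L)) := by
        have e1 : Λ * ((N:ℝ) ^ 2 * a) ≤ Λ * (((N:ℝ) ^ 2 * a) * L) := by
          apply mul_le_mul_of_nonneg_left _ hΛ0
          nlinarith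
        have e2 : 8 * (((N:ℝ) ^ 2 * a) * L) ≤ Λ * (8 * (((N:ℝ) ^ 2 * a) * L)) := by
          have : 0 ≤ 8 * (((N:ℝ) ^ 2 * a) * L) := by positivity
          nlinarith
        linarith
    _ = _ := by rw [hL]; ring

theorem self_translates (N : ℕ) (hN : 1 ≤ N) (A : Finset ℝ)
    (hA : ∀ s ∈ A, ∀ t ∈ A, s ≠ t → 1 ≤ |s - t|) (Λ η : ℝ) (hΛ : 1 ≤ Λ) (hη : 0 < η) :
    ∃ E : Set ℝ, MeasurableSet E ∧ volume E ≤ ENNReal.ofReal (η * Λ) ∧
      ∀ x ∈ Set.Icc Λ (2 * Λ), x ∉ E → ∀ (a : ℕ → ℂ) (v : ℝ), (∀ n, ‖a n‖ ≤ 1) →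
        ∑ t ∈ A, ∑ u ∈ A, ‖DP N a (v + x * (t - u))‖ ^ 2 ≤
          N * (A.card:ℝ) ^ 2 + 9 / η * (N:ℝ) ^ 2 * A.card * (1 + Real.log A.card) *
            (1 + Real.log N) := by
  classical
  rcases A.eq_empty_or_nonempty with h0 | h0
  · refine ⟨∅, MeasurableSet.empty, by simp, fun x _ _ a v _ => ?_⟩
    rw [h0]; simp
  have hNr : (1:ℝ) ≤ N := by exact_mod_cast hN
  have hlN : 0 ≤ Real.log N := Real.log_nonneg hNr
  have hA1 : (1:ℝ) ≤ A.card := by exact_mod_cast h0.card_pos
  have hlA : 0 ≤ Real.log A.card := Real.log_nonneg hA1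
  set B : ℝ := 9 * (N:ℝ) ^ 2 * A.card * (1 + Real.log A.card) * (1 + Real.log N) with hB
  have hB0 : 0 < B := by positivity
  have hint := int_GO N A hA Λ hΛ
  rw [← hB] at hint
  have hle : Λ ≤ 2 * Λ := by linarith
  have hI : Integrable (GO N A) (volume.restrict (Set.Icc Λ (2*Λ))) :=
    (GO_cont N A).continuousOn.integrableOn_compact isCompact_Icc
  have h1 := mul_meas_ge_le_integral_of_nonneg (μ := volume.restrict (Set.Icc Λ (2*Λ)))
    (f := GO N A) (Filter.Eventually.of_forall (fun x => GO_nonneg N A x)) hI (B / η)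
  have h2 : ∫ x in Set.Icc Λ (2*Λ), GO N A x = ∫ x in Λ..(2*Λ), GO N A x := by
    rw [intervalIntegral.integral_of_le hle, integral_Icc_eq_integral_Ioc]
  rw [h2] at h1
  have hmeas : MeasurableSet {x | B / η ≤ GO N A x} :=
    measurableSet_le measurable_const (GO_cont N A).measurable
  refine ⟨{x | B / η ≤ GO N A x} ∩ Set.Icc Λ (2*Λ), hmeas.inter measurableSet_Icc, ?_, ?_⟩
  · rw [← Measure.restrict_apply hmeas]
    have hfin : (volume.restrict (Set.Icc Λ (2*Λ))) {x | B / η ≤ GO N A x} ≠ ⊤ :=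
      measure_ne_top (volume.restrict (Set.Icc Λ (2*Λ))) _
    rw [← ENNReal.ofReal_toReal hfin]
    apply ENNReal.ofReal_le_ofReal
    have h4 : B / η * (volume.restrict (Set.Icc Λ (2*Λ))).real {x | B / η ≤ GO N A x} ≤ Λ * B :=
      h1.trans hint
    have h6 : B * ((volume.restrict (Set.Icc Λ (2*Λ))).real {x | B / η ≤ GO N A x}) ≤
        B * (η * Λ) := by
      calc B * ((volume.restrict (Set.Icc Λ (2*Λ))).real {x | B / η ≤ GO N A x}) =
          η * (B / η * (volume.restrict (Set.Icc Λ (2*Λ))).real {x | B / η ≤ GO N A x}) := by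
            field_simp
        _ ≤ η * (Λ * B) := by gcongr
        _ = _ := by ring
    exact le_of_mul_le_mul_left h6 hB0
  · intro x hx hxE a v ha
    have hlt : GO N A x < B / η := by
      by_contra h
      exact hxE ⟨not_lt.1 h, hx⟩
    have h7 := diff_sumR N A x v a ha
    rw [GR_eq] at h7
    have h8 : B / η = 9 / η * (N:ℝ) ^ 2 * A.card * (1 + Real.log A.card) *
            (1 + Real.log N) := by rw [hB]; ring
    rw [← h8]
    linarith

end Pool.Agent.TH961.AP
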