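import Mathlib

set_option autoImplicit false

/-!
Kernel bounds and the expansion of the mean square of a Dirichlet polynomial over an
arithmetic progression.
-/

namespace Pool.Agent.TH961.AP

open Finset Complex

/-- distance to the nearest integer -/
noncomputable def dn (x : ℝ) : ℝ := |x - round x|

theorem dn_nonneg (x : ℝ) : 0 ≤ dn x := abs_nonneg _

theorem dn_le (x : ℝ) : dn x ≤ 1 / 2 := abs_sub_round x

noncomputable def ee (x : ℝ) : ℂ := Complex.exp (2 * Real.pi * x * Complex.I)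

theorem norm_ee (x : ℝ) : ‖ee x‖ = 1 := by
  unfold ee
  have : (2 * (Real.pi : ℂ) * (x : ℂ) * Complex.I) = ((2 * Real.pi * x : ℝ) : ℂ) * Complex.I := by
    push_cast; ring
  rw [this, Complex.norm_exp_ofReal_mul_I]

theorem ee_natmul (j : ℕ) (x : ℝ) : ee (j * x) = (ee x) ^ j := by
  unfold ee
  rw [← Complex.exp_nat_mul]
  congr 1
  push_cast; ring

theorem ee_sub_int (x : ℝ) (k : ℤ) : ee (x - k) = ee x := by
  unfold ee
  have : (2 * (Real.pi : ℂ) * ((x - k : ℝ) : ℂ) * Complex.I)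
      = 2 * (Real.pi : ℂ) * (x : ℂ) * Complex.I - k * (2 * (Real.pi : ℂ) * Complex.I) := by
    push_cast; ring
  rw [this, Complex.exp_sub, Complex.exp_int_mul_two_pi_mul_I, div_one]

theorem norm_ee_sub_one (x : ℝ) : 4 * dn x ≤ ‖ee x - 1‖ := by
  have h1 : ee x = ee (x - round x) := (ee_sub_int x (round x)).symm
  rw [h1]
  set y := x - round x with hy
  have hd : dn x = |y| := rfl
  rw [hd]
  have hy2 : |y| ≤ 1 / 2 := abs_sub_round x
  have h2 : ‖ee y - 1‖ = 2 * |Real.sin (Real.pi * y)| := by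
    unfold ee
    have : (2 * (Real.pi : ℂ) * (y : ℂ) * Complex.I) = Complex.I * ((2 * Real.pi * y : ℝ) : ℂ) := by
      push_cast; ring
    rw [this, Complex.norm_exp_I_mul_ofReal_sub_one]
    rw [show (2 * Real.pi * y) / 2 = Real.pi * y by ring]
    rw [norm_mul, Real.norm_eq_abs, Real.norm_eq_abs, abs_of_pos (by norm_num : (0:ℝ) < 2)]
  rw [h2]
  have hpi := Real.pi_pos
  have h3 : |Real.pi * y| ≤ Real.pi / 2 := by
    rw [abs_mul, abs_of_pos hpi]
    nlinarith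
  have h4 := Real.mul_abs_le_abs_sin h3
  rw [abs_mul, abs_of_pos hpi] at h4
  have h5 : 2 / Real.pi * (Real.pi * |y|) = 2 * |y| := by
    field_simp
  linarith

theorem geom_bound (J : ℕ) (x : ℝ) (hx : 0 < dn x) :
    ‖∑ j ∈ range J, ee (j * x)‖ ≤ 1 / (2 * dn x) := by
  have h1 : ∑ j ∈ range J, ee (j * x) = ∑ j ∈ range J, (ee x) ^ j :=
    sum_congr rfl (fun j _ => ee_natmul j x)
  have h2 := norm_ee_sub_one x
  have hne : ee x ≠ 1 := by
    intro h
    rw [h, sub_self, norm_zero] at h2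
    linarith
  rw [h1, geom_sum_eq hne, norm_div]
  have h3 : ‖(ee x) ^ J - 1‖ ≤ 2 := by
    calc ‖(ee x) ^ J - 1‖ ≤ ‖(ee x) ^ J‖ + ‖(1:ℂ)‖ := norm_sub_le _ _
      _ = 2 := by rw [norm_pow, norm_ee, one_pow, norm_one]; norm_num
  have h4 : 0 < ‖ee x - 1‖ := by linarith
  rw [div_le_div_iff₀ h4 (by linarith)]
  nlinarith

theorem ker_dyadic (J L : ℕ) (hJ : J ≤ 2 ^ L) (x : ℝ) :
    ‖∑ j ∈ range J, ee (j * x)‖ ≤
      ∑ l ∈ range (L + 1), (2:ℝ) ^ l * (if dn x ≤ (1 / 2) ^ l then 1 else 0) := by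
  have hterm : ∀ l ∈ range (L + 1), 0 ≤ (2:ℝ) ^ l * (if dn x ≤ (1 / 2) ^ l then (1:ℝ) else 0) := by
    intro l _
    split_ifs <;> positivity
  by_cases h : dn x ≤ (1 / 2) ^ L
  · have h1 := Finset.single_le_sum hterm (mem_range.2 (Nat.lt_succ_self L))
    simp only [h, if_true, mul_one] at h1
    refine le_trans ?_ h1
    calc ‖∑ j ∈ range J, ee (j * x)‖ ≤ ∑ j ∈ range J, ‖ee (j * x)‖ := norm_sum_le _ _
      _ = J := by simp [norm_ee]
      _ ≤ (2:ℝ) ^ L := by exact_mod_cast hJ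
  · push Not at h
    have hex : ∃ l : ℕ, (1 / 2 : ℝ) ^ (l + 1) < dn x := by
      refine ⟨L, lt_of_le_of_lt ?_ h⟩
      exact pow_le_pow_of_le_one (by norm_num) (by norm_num) (Nat.le_succ L)
    classical
    set l := Nat.find hex with hl
    have hl1 : (1 / 2 : ℝ) ^ (l + 1) < dn x := Nat.find_spec hex
    have hlL : l ≤ L := by
      apply Nat.find_min' hex
      refine lt_of_le_of_lt ?_ h
      exact pow_le_pow_of_le_one (by norm_num) (by norm_num) (Nat.le_succ L)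
    have hl2 : dn x ≤ (1 / 2 : ℝ) ^ l := by
      rcases Nat.eq_zero_or_pos l with h0 | h0
      · rw [h0, pow_zero]
        have := dn_le x
        linarith
      · have := Nat.find_min hex (m := l - 1) (by omega)
        rw [Nat.sub_add_cancel h0] at this
        exact not_lt.1 this
    have h1 := Finset.single_le_sum hterm (mem_range.2 (Nat.lt_succ_of_le hlL))
    simp only [hl2, if_true, mul_one] at h1
    refine le_trans ?_ h1
    have hd : 0 < dn x := lt_trans (by positivity) hl1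
    refine (geom_bound J x hd).trans ?_
    rw [div_le_iff₀ (by positivity)]
    have h5 : (2:ℝ) ^ l * (2 * (1 / 2) ^ (l + 1)) = 1 := by
      rw [pow_succ]
      have : (2:ℝ) ^ l * (1 / 2) ^ l = 1 := by
        rw [← mul_pow]; norm_num
      linarith
    have h6 : (0:ℝ) < 2 ^ l := by positivity
    nlinarith

/-- the Dirichlet polynomial -/
noncomputable def DP (N : ℕ) (a : ℕ → ℂ) (t : ℝ) : ℂ :=
  ∑ n ∈ Icc 1 N, a n * (n : ℂ) ^ (-((t : ℂ) * Complex.I))

noncomputable def xx (δ : ℝ) (q a : ℕ) : ℝ := δ * (Real.log a - Real.log q) / (2 * Real.pi)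

theorem cpow_eq (n : ℕ) (hn : 1 ≤ n) (t : ℝ) :
    (n : ℂ) ^ (-((t : ℂ) * Complex.I)) = Complex.exp ((-(t * Real.log n) : ℝ) * Complex.I) := by
  have hn0 : (n : ℂ) ≠ 0 := by exact_mod_cast (by omega : n ≠ 0)
  rw [Complex.cpow_def_of_ne_zero hn0, ← Complex.natCast_log]
  congr 1
  push_cast
  ring

theorem mean_square (N J : ℕ) (δ t₀ : ℝ) (a : ℕ → ℂ) (ha : ∀ n, ‖a n‖ ≤ 1) :
    ∑ j ∈ range J, ‖DP N a (t₀ + j * δ)‖ ^ 2 ≤
      ∑ m ∈ Icc 1 N, ∑ n ∈ Icc 1 N, ‖∑ j ∈ range J, ee (j * xx δ m n)‖ := by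
  have hpi := Real.pi_pos
  have hterm : ∀ j ∈ range J, ((‖DP N a (t₀ + j * δ)‖ ^ 2 : ℝ) : ℂ) =
      ∑ m ∈ Icc 1 N, ∑ n ∈ Icc 1 N, (a m * (starRingEnd ℂ) (a n) *
        Complex.exp ((t₀ * (Real.log n - Real.log m) : ℝ) * Complex.I)) * ee (j * xx δ m n) := by
    intro j _
    have h1 : ((‖DP N a (t₀ + j * δ)‖ ^ 2 : ℝ) : ℂ) =
        DP N a (t₀ + j * δ) * (starRingEnd ℂ) (DP N a (t₀ + j * δ)) := by
      rw [Complex.mul_conj, Complex.normSq_eq_norm_sq]
    rw [h1]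
    unfold DP
    rw [map_sum, Finset.sum_mul_sum]
    apply sum_congr rfl
    intro m hm
    apply sum_congr rfl
    intro n hn
    rw [cpow_eq m (mem_Icc.1 hm).1, cpow_eq n (mem_Icc.1 hn).1, map_mul, ← Complex.exp_conj]
    have h2 : (starRingEnd ℂ) (((-((t₀ + j * δ) * Real.log n) : ℝ) : ℂ) * Complex.I) =
        (((t₀ + j * δ) * Real.log n : ℝ) : ℂ) * Complex.I := by
      rw [map_mul, Complex.conj_ofReal, Complex.conj_I]
      push_cast; ring
    rw [h2]
    have h3 : Complex.exp (((-((t₀ + j * δ) * Real.log m) : ℝ) : ℂ) * Complex.I) *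
        Complex.exp ((((t₀ + j * δ) * Real.log n : ℝ) : ℂ) * Complex.I) =
        Complex.exp ((t₀ * (Real.log n - Real.log m) : ℝ) * Complex.I) * ee (j * xx δ m n) := by
      unfold ee xx
      rw [← Complex.exp_add, ← Complex.exp_add]
      congr 1
      have hpc : (Real.pi : ℂ) ≠ 0 := by exact_mod_cast hpi.ne'
      push_cast
      field_simp
      ring
    calc a m * Complex.exp (((-((t₀ + j * δ) * Real.log m) : ℝ) : ℂ) * Complex.I) *
          ((starRingEnd ℂ) (a n) * Complex.exp ((((t₀ + j * δ) * Real.log n : ℝ) : ℂ) * Complex.I))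
        = a m * (starRingEnd ℂ) (a n) *
          (Complex.exp (((-((t₀ + j * δ) * Real.log m) : ℝ) : ℂ) * Complex.I) *
          Complex.exp ((((t₀ + j * δ) * Real.log n : ℝ) : ℂ) * Complex.I)) := by ring
      _ = _ := by rw [h3]; ring
  have h4 : ((∑ j ∈ range J, ‖DP N a (t₀ + j * δ)‖ ^ 2 : ℝ) : ℂ) =
      ∑ m ∈ Icc 1 N, ∑ n ∈ Icc 1 N, (a m * (starRingEnd ℂ) (a n) *
        Complex.exp ((t₀ * (Real.log n - Real.log m) : ℝ) * Complex.I)) *
          ∑ j ∈ range J, ee (j * xx δ m n) := by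
    rw [Complex.ofReal_sum, sum_congr rfl hterm, sum_comm]
    apply sum_congr rfl
    intro m _
    rw [sum_comm]
    apply sum_congr rfl
    intro n _
    rw [mul_sum]
  have h5 : ∑ j ∈ range J, ‖DP N a (t₀ + j * δ)‖ ^ 2 =
      ‖((∑ j ∈ range J, ‖DP N a (t₀ + j * δ)‖ ^ 2 : ℝ) : ℂ)‖ := by
    rw [Complex.norm_real, Real.norm_eq_abs, abs_of_nonneg (sum_nonneg (fun _ _ => by positivity))]
  rw [h5, h4]
  refine (norm_sum_le _ _).trans (sum_le_sum fun m _ => (norm_sum_le _ _).trans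
    (sum_le_sum fun n _ => ?_))
  rw [norm_mul, norm_mul, norm_mul, Complex.norm_exp_ofReal_mul_I, mul_one]
  have h6 : ‖(starRingEnd ℂ) (a n)‖ ≤ 1 := by
    rw [RCLike.norm_conj]; exact ha n
  have h7 : ‖a m‖ * ‖(starRingEnd ℂ) (a n)‖ ≤ 1 := by
    have := ha m
    nlinarith [norm_nonneg (a m), norm_nonneg ((starRingEnd ℂ) (a n))]
  have h8 := norm_nonneg (∑ j ∈ range J, ee (j * xx δ m n))
  nlinarith

end Pool.Agent.TH961.AP
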