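import Pool.Agent.TH961.AP.Gen3
import Pool.Agent.H510R2.Div

set_option autoImplicit false

/-!
Powers of Dirichlet polynomials and `l^q` bounds for generic dilates.
-/

namespace Pool.Agent.TH961.AP

open Finset MeasureTheory
open scoped Pointwise

theorem prod_DP (M N : ℕ) (c b : ℕ → ℂ) (B D : ℝ) (hB : 0 ≤ B) (hc : ∀ n, ‖c n‖ ≤ B)
    (hb : ∀ n, ‖b n‖ ≤ 1) (hD0 : 0 ≤ D)
    (hD : ∀ m ∈ Icc 1 (M * N), (m.divisors.card : ℝ) ≤ D) :
    ∃ c' : ℕ → ℂ, (∀ t, DP M c t * DP N b t = DP (M * N) c' t) ∧ ∀ m, ‖c' m‖ ≤ D * B := by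
  classical
  let P : Finset (ℕ × ℕ) := (Icc 1 M) ×ˢ (Icc 1 N)
  refine ⟨fun m => ∑ p ∈ P.filter (fun p => p.1 * p.2 = m), c p.1 * b p.2, ?_, ?_⟩
  · intro t
    unfold DP
    rw [sum_mul_sum, ← sum_product']
    have hmaps : ∀ p ∈ P, p.1 * p.2 ∈ Icc 1 (M * N) := by
      intro p hp
      rw [mem_product, mem_Icc, mem_Icc] at hp
      rw [mem_Icc]
      exact ⟨Nat.mul_pos hp.1.1 hp.2.1, Nat.mul_le_mul hp.1.2 hp.2.2⟩
    rw [← sum_fiberwise_of_maps_to hmaps]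
    apply sum_congr rfl
    intro m _
    rw [sum_mul]
    apply sum_congr rfl
    intro p hp
    rw [mem_filter] at hp
    rw [← hp.2, Nat.cast_mul, Complex.natCast_mul_natCast_cpow]
    ring
  · intro m
    have h1 : ‖∑ p ∈ P.filter (fun p => p.1 * p.2 = m), c p.1 * b p.2‖ ≤
        ∑ p ∈ P.filter (fun p => p.1 * p.2 = m), B := by
      refine (norm_sum_le _ _).trans (sum_le_sum fun p _ => ?_)
      rw [norm_mul]
      have := hc p.1
      have := hb p.2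
      nlinarith [norm_nonneg (c p.1), norm_nonneg (b p.2)]
    rw [sum_const, nsmul_eq_mul] at h1
    refine h1.trans ?_
    apply mul_le_mul_of_nonneg_right _ hB
    by_cases hm : m ∈ Icc 1 (M * N)
    · refine le_trans ?_ (hD m hm)
      have hm1 := (mem_Icc.1 hm).1
      have hinj : Set.InjOn (fun p : ℕ × ℕ => p.1)
          (P.filter (fun p => p.1 * p.2 = m) : Finset (ℕ × ℕ)) := by
        intro p hp p' hp' h
        rw [mem_coe, mem_filter] at hp hp'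
        simp only at h
        have e1 : p.1 * p.2 = p.1 * p'.2 := by rw [hp.2, h, hp'.2]
        have hp1 : 0 < p.1 := by
          rcases Nat.eq_zero_or_pos p.1 with h0 | h0
          · rw [h0, zero_mul] at hp; omega
          · exact h0
        exact Prod.ext h (Nat.eq_of_mul_eq_mul_left hp1 e1)
      rw [← card_image_of_injOn hinj]
      have : (P.filter (fun p => p.1 * p.2 = m)).image (fun p => p.1) ⊆ m.divisors := by
        intro d hd
        obtain ⟨p, hp, rfl⟩ := mem_image.1 hd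
        rw [mem_filter] at hp
        rw [Nat.mem_divisors]
        exact ⟨⟨p.2, hp.2.symm⟩, by omega⟩
      exact_mod_cast card_le_card this
    · have : P.filter (fun p => p.1 * p.2 = m) = ∅ := by
        rw [filter_eq_empty_iff]
        intro p hp hpm
        apply hm
        rw [mem_product, mem_Icc, mem_Icc] at hp
        rw [← hpm, mem_Icc]
        exact ⟨Nat.mul_pos hp.1.1 hp.2.1, Nat.mul_le_mul hp.1.2 hp.2.2⟩
      rw [this]
      simpa using hD0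

theorem pow_DP (k : ℕ) : ∀ ε : ℝ, 0 < ε → ∃ C : ℝ, 1 ≤ C ∧ ∀ N : ℕ, 1 ≤ N → ∀ b : ℕ → ℂ,
    (∀ n, ‖b n‖ ≤ 1) → ∃ c : ℕ → ℂ, (∀ t, DP N b t ^ k = DP (N ^ k) c t) ∧
      ∀ m, ‖c m‖ ≤ C * (N:ℝ) ^ ε := by
  induction k with
  | zero =>
    intro ε hε
    refine ⟨1, le_rfl, fun N hN b _ => ⟨fun _ => 1, ?_, ?_⟩⟩
    · intro t
      unfold DP
      simp
    · intro m
      have : (1:ℝ) ≤ (N:ℝ) ^ ε := Real.one_le_rpow (by exact_mod_cast hN) hε.le
      simpa using this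
  | succ k ih =>
    intro ε hε
    obtain ⟨C, hC1, hC⟩ := ih (ε / 2) (by positivity)
    obtain ⟨C', hC'0, hC'⟩ := Pool.Agent.H510R2.divisor_bound (ε / (2 * (k + 1))) (by positivity)
    refine ⟨max 1 (C' * C), le_max_left _ _, fun N hN b hb => ?_⟩
    have hNr : (1:ℝ) ≤ N := by exact_mod_cast hN
    have hN0 : (0:ℝ) < N := by linarith
    obtain ⟨c, hc1, hc2⟩ := hC N hN b hb
    have hD : ∀ m ∈ Icc 1 (N ^ k * N), (m.divisors.card : ℝ) ≤ C' * (N:ℝ) ^ (ε / 2) := by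
      intro m hm
      rw [mem_Icc] at hm
      refine (hC' m hm.1).trans ?_
      apply mul_le_mul_of_nonneg_left _ hC'0.le
      have hm2 : (m:ℝ) ≤ (N:ℝ) ^ (k + 1) := by
        have : m ≤ N ^ (k + 1) := by rw [pow_succ]; exact hm.2
        exact_mod_cast this
      calc (m:ℝ) ^ (ε / (2 * (k + 1))) ≤ ((N:ℝ) ^ (k + 1)) ^ (ε / (2 * (k + 1))) :=
            Real.rpow_le_rpow (Nat.cast_nonneg m) hm2 (by positivity)
        _ = (N:ℝ) ^ (ε / 2) := by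
            rw [← Real.rpow_natCast (N:ℝ) (k + 1), ← Real.rpow_mul hN0.le]
            congr 1
            push_cast
            field_simp
    obtain ⟨c', h1, h2⟩ := prod_DP (N ^ k) N c b (C * (N:ℝ) ^ (ε / 2)) (C' * (N:ℝ) ^ (ε / 2))
      (by positivity) hc2 hb (by positivity) hD
    refine ⟨c', ?_, ?_⟩
    · intro t
      rw [pow_succ, hc1, h1, pow_succ]
    · intro m
      refine (h2 m).trans ?_
      have e1 : (N:ℝ) ^ ε = (N:ℝ) ^ (ε / 2) * (N:ℝ) ^ (ε / 2) := by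
        rw [← Real.rpow_add hN0]; congr 1; ring
      calc C' * (N:ℝ) ^ (ε / 2) * (C * (N:ℝ) ^ (ε / 2)) = (C' * C) * (N:ℝ) ^ ε := by
            rw [e1]; ring
        _ ≤ max 1 (C' * C) * (N:ℝ) ^ ε := by
            apply mul_le_mul_of_nonneg_right (le_max_right _ _)
            positivity

/-- the mean square for coefficients bounded by `B` -/
theorem scale_DP (N : ℕ) (A : Finset ℤ) (x X B : ℝ) (hB : 0 < B)
    (h : ∀ (a : ℕ → ℂ) (t₀ : ℝ), (∀ n, ‖a n‖ ≤ 1) → ∑ s ∈ A, ‖DP N a (t₀ + x * s)‖ ^ 2 ≤ X)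
    (c : ℕ → ℂ) (hc : ∀ n, ‖c n‖ ≤ B) (t₀ : ℝ) :
    ∑ s ∈ A, ‖DP N c (t₀ + x * s)‖ ^ 2 ≤ B ^ 2 * X := by
  have h1 := h (fun n => ((B⁻¹ : ℝ) : ℂ) * c n) t₀ (fun n => by
    rw [norm_mul, Complex.norm_real, Real.norm_eq_abs, abs_of_pos (inv_pos.2 hB)]
    have := hc n
    calc B⁻¹ * ‖c n‖ ≤ B⁻¹ * B := by gcongr
      _ = 1 := inv_mul_cancel₀ hB.ne')
  have h2 : ∀ t, DP N (fun n => ((B⁻¹ : ℝ) : ℂ) * c n) t = ((B⁻¹ : ℝ) : ℂ) * DP N c t := by
    intro t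
    unfold DP
    rw [mul_sum]
    apply sum_congr rfl
    intro n _
    ring
  simp only [h2] at h1
  have h3 : ∑ s ∈ A, ‖((B⁻¹ : ℝ) : ℂ) * DP N c (t₀ + x * s)‖ ^ 2 =
      (B⁻¹) ^ 2 * ∑ s ∈ A, ‖DP N c (t₀ + x * s)‖ ^ 2 := by
    rw [mul_sum]
    apply sum_congr rfl
    intro s _
    rw [norm_mul, Complex.norm_real, Real.norm_eq_abs, abs_of_pos (inv_pos.2 hB)]
    ring
  rw [h3] at h1
  calc ∑ s ∈ A, ‖DP N c (t₀ + x * s)‖ ^ 2
      = B ^ 2 * ((B⁻¹) ^ 2 * ∑ s ∈ A, ‖DP N c (t₀ + x * s)‖ ^ 2) := by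
        field_simp
    _ ≤ B ^ 2 * X := by gcongr

theorem norm_DP_le (N : ℕ) (b : ℕ → ℂ) (hb : ∀ n, ‖b n‖ ≤ 1) (t : ℝ) : ‖DP N b t‖ ≤ N := by
  unfold DP
  calc ‖∑ n ∈ Icc 1 N, b n * (n:ℂ) ^ (-((t:ℂ) * Complex.I))‖
      ≤ ∑ n ∈ Icc 1 N, ‖b n * (n:ℂ) ^ (-((t:ℂ) * Complex.I))‖ := norm_sum_le _ _
    _ ≤ ∑ n ∈ Icc 1 N, (1:ℝ) := sum_le_sum (fun n hn => by
        rw [norm_mul, cpow_eq n (mem_Icc.1 hn).1, Complex.norm_exp_ofReal_mul_I, mul_one]
        exact hb n)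
    _ = N := by simp

/-- interpolation -/
theorem interp (A : Finset ℤ) (hA : A.Nonempty) (f : ℤ → ℝ) (hf0 : ∀ s ∈ A, 0 ≤ f s)
    (k : ℕ) (hk : 1 ≤ k) (N Y q : ℝ) (hN : 1 ≤ N) (hfN : ∀ s ∈ A, f s ≤ N) (hq : 0 < q)
    (hY : 1 ≤ Y) (h : ∑ s ∈ A, f s ^ (2 * k) ≤ Y * (N ^ (2 * k) + A.card * N ^ k)) :
    ∑ s ∈ A, f s ^ q ≤ 2 * Y * max (A.card / N ^ k) (N ^ k / A.card) *
      (N ^ q + A.card * N ^ (q / 2)) := by
  have hn0 : (0:ℝ) < A.card := by exact_mod_cast hA.card_pos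
  have hN0 : 0 < N := by linarith
  have hNk : 0 < N ^ k := by positivity
  set n : ℝ := (A.card : ℝ) with hn
  set m := max (n / N ^ k) (N ^ k / n) with hm
  have hm1 : 1 ≤ m := by
    rcases le_total n (N ^ k) with h1 | h1
    · refine le_trans ?_ (le_max_right _ _)
      rw [one_le_div hn0]; exact h1
    · refine le_trans ?_ (le_max_left _ _)
      rw [one_le_div hNk]; exact h1
  have hNq : 0 < N ^ q := Real.rpow_pos_of_pos hN0 q
  have hNq2 : 0 < N ^ (q / 2) := Real.rpow_pos_of_pos hN0 _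
  have hk0 : (0:ℝ) < k := by exact_mod_cast hk
  rcases le_total (2 * (k:ℝ)) q with hc | hc
  · -- q ≥ 2k
    have h1 : ∀ s ∈ A, f s ^ q ≤ N ^ (q - 2 * k) * f s ^ (2 * k) := by
      intro s hs
      have e1 : f s ^ q = f s ^ (q - 2 * k) * f s ^ (2 * k) := by
        rcases (hf0 s hs).eq_or_lt with h0 | h0
        · rw [← h0, Real.zero_rpow hq.ne']
          rw [zero_pow (by omega), mul_zero]
        · rw [← Real.rpow_natCast (f s) (2 * k), ← Real.rpow_add h0]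
          congr 1
          push_cast; ring
      rw [e1]
      apply mul_le_mul_of_nonneg_right _ (pow_nonneg (hf0 s hs) _)
      exact Real.rpow_le_rpow (hf0 s hs) (hfN s hs) (by linarith)
    calc ∑ s ∈ A, f s ^ q ≤ ∑ s ∈ A, N ^ (q - 2 * k) * f s ^ (2 * k) := sum_le_sum h1
      _ = N ^ (q - 2 * k) * ∑ s ∈ A, f s ^ (2 * k) := by rw [mul_sum]
      _ ≤ N ^ (q - 2 * k) * (Y * (N ^ (2 * k) + n * N ^ k)) := by
          apply mul_le_mul_of_nonneg_left h (Real.rpow_nonneg hN0.le _)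
      _ = (N ^ (q - 2 * k) * N ^ (2 * k)) * (Y * (1 + n / N ^ k)) := by
          have : N ^ (2 * k) = N ^ k * N ^ k := by rw [← pow_add]; congr 1; ring
          rw [this]
          field_simp
      _ = N ^ q * (Y * (1 + n / N ^ k)) := by
          rw [← Real.rpow_natCast N (2 * k), ← Real.rpow_add hN0]
          congr 2
          push_cast; ring
      _ ≤ N ^ q * (Y * (m + m)) := by
          gcongr
          exact le_max_left _ _
      _ ≤ 2 * Y * m * (N ^ q + n * N ^ (q / 2)) := by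
          have : 0 ≤ 2 * Y * m * (n * N ^ (q / 2)) := by positivity
          nlinarith
  · -- q ≤ 2k
    have hp1 : 1 ≤ 2 * (k:ℝ) / q := by rw [one_le_div hq]; exact hc
    have h1 := Real.rpow_arith_mean_le_arith_mean_rpow A (fun _ => 1 / n) (fun s => f s ^ q)
      (fun _ _ => by positivity) (by rw [sum_const, nsmul_eq_mul, ← hn]; field_simp)
      (fun s hs => Real.rpow_nonneg (hf0 s hs) _) hp1
    simp only [← mul_sum] at h1
    have h2 : ∀ s ∈ A, (f s ^ q) ^ (2 * (k:ℝ) / q) = f s ^ (2 * k) := by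
      intro s hs
      rw [← Real.rpow_mul (hf0 s hs), ← Real.rpow_natCast (f s) (2 * k)]
      congr 1
      push_cast
      field_simp
    rw [sum_congr rfl h2] at h1
    set Sq := ∑ s ∈ A, f s ^ q with hSq
    have hSq0 : 0 ≤ Sq := sum_nonneg (fun s hs => Real.rpow_nonneg (hf0 s hs) _)
    have h3 : (1 / n * Sq) ^ (2 * (k:ℝ) / q) ≤ 2 * Y * m * N ^ k := by
      refine h1.trans ?_
      calc 1 / n * ∑ s ∈ A, f s ^ (2 * k) ≤ 1 / n * (Y * (N ^ (2 * k) + n * N ^ k)) := by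
            gcongr
        _ = Y * N ^ k * (N ^ k / n + 1) := by
            have : N ^ (2 * k) = N ^ k * N ^ k := by rw [← pow_add]; congr 1; ring
            rw [this]
            field_simp
        _ ≤ Y * N ^ k * (m + m) := by
            gcongr
            exact le_max_right _ _
        _ = _ := by ring
    have h4 : 1 / n * Sq ≤ (2 * Y * m * N ^ k) ^ (q / (2 * (k:ℝ))) := by
      have e1 : 1 / n * Sq = ((1 / n * Sq) ^ (2 * (k:ℝ) / q)) ^ (q / (2 * (k:ℝ))) := by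
        rw [← Real.rpow_mul (by positivity)]
        have : 2 * (k:ℝ) / q * (q / (2 * (k:ℝ))) = 1 := by field_simp
        rw [this, Real.rpow_one]
      rw [e1]
      exact Real.rpow_le_rpow (by positivity) h3 (by positivity)
    have h5 : (2 * Y * m * N ^ k) ^ (q / (2 * (k:ℝ))) ≤ 2 * Y * m * N ^ (q / 2) := by
      have hYm : 1 ≤ 2 * Y * m := by nlinarith
      rw [Real.mul_rpow (by positivity) (by positivity)]
      have e1 : (N ^ k) ^ (q / (2 * (k:ℝ))) = N ^ (q / 2) := by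
        rw [← Real.rpow_natCast N k, ← Real.rpow_mul hN0.le]
        congr 1
        field_simp
      rw [e1]
      apply mul_le_mul_of_nonneg_right _ hNq2.le
      calc (2 * Y * m) ^ (q / (2 * (k:ℝ))) ≤ (2 * Y * m) ^ (1:ℝ) :=
            Real.rpow_le_rpow_of_exponent_le hYm (by rw [div_le_one (by positivity)]; exact hc)
        _ = _ := Real.rpow_one _
    have h6 : Sq ≤ n * (2 * Y * m * N ^ (q / 2)) := by
      have := h4.trans h5
      calc Sq = n * (1 / n * Sq) := by field_simp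
        _ ≤ n * (2 * Y * m * N ^ (q / 2)) := by gcongr
    have h7 : 0 ≤ 2 * Y * m * N ^ q := by positivity
    calc Sq ≤ n * (2 * Y * m * N ^ (q / 2)) := h6
      _ ≤ 2 * Y * m * (N ^ q + n * N ^ (q / 2)) := by nlinarith

/-- the `l^q` theorem for generic dilates of a set of small doubling -/
theorem lq (k : ℕ) (hk : 1 ≤ k) (ε : ℝ) (hε : 0 < ε) : ∃ C : ℝ, 1 ≤ C ∧
    ∀ (N : ℕ), 1 ≤ N → ∀ (A : Finset ℤ), A.Nonempty → ∀ (K Λ η : ℝ), 1 ≤ Λ → 0 < η → η ≤ 1 →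
      ((A - A).card : ℝ) ≤ K * A.card →
    volume {x | x ∈ Set.Icc Λ (2*Λ) ∧ ¬ ∀ (b : ℕ → ℂ) (v : ℝ), (∀ n, ‖b n‖ ≤ 1) →
      (∑ s ∈ A, ‖DP N b (v + x * s)‖ ^ (2 * k) ≤
        C * (N:ℝ) ^ ε * (K ^ 2 / η) * (1 + Real.log (K * A.card)) *
          ((N:ℝ) ^ (2 * k) + A.card * (N:ℝ) ^ k)) ∧
      ∀ q : ℝ, 0 < q → ∑ s ∈ A, ‖DP N b (v + x * s)‖ ^ q ≤
        2 * (C * (N:ℝ) ^ ε * (K ^ 2 / η) * (1 + Real.log (K * A.card))) *
          max (A.card / (N:ℝ) ^ k) ((N:ℝ) ^ k / A.card) *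
            ((N:ℝ) ^ q + A.card * (N:ℝ) ^ (q / 2))} ≤
      ENNReal.ofReal (η * Λ) := by
  obtain ⟨C, hC1, hC⟩ := pow_DP k (ε / 3) (by positivity)
  refine ⟨9 * C ^ 2 * (1 + 3 * k / ε), ?_, ?_⟩
  · have h1 : 1 ≤ C ^ 2 := one_le_pow₀ hC1
    have h2 : 1 ≤ 1 + 3 * (k:ℝ) / ε := by
      have : 0 ≤ 3 * (k:ℝ) / ε := by positivity
      linarith
    nlinarith
  intro N hN A hA K Λ η hΛ hη hη1 hK
  classical
  have hNr : (1:ℝ) ≤ N := by exact_mod_cast hN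
  have hN0 : (0:ℝ) < N := by linarith
  have hA1 : (1:ℝ) ≤ A.card := by exact_mod_cast hA.card_pos
  have hAA : A.card ≤ (A - A).card := by
    obtain ⟨u, hu⟩ := hA
    calc A.card = (A - {u}).card := by
          rw [sub_singleton]
          exact (card_image_of_injective _ (sub_left_injective)).symm
      _ ≤ _ := card_le_card (sub_subset_sub_left (singleton_subset_iff.2 hu))
  have hAA' : (A.card:ℝ) ≤ (A - A).card := by exact_mod_cast hAA
  have hK1 : 1 ≤ K := by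
    have : 1 * (A.card:ℝ) ≤ K * A.card := by linarith
    exact le_of_mul_le_mul_right this (by linarith)
  have hsd := small_doubling (N ^ k) (Nat.one_le_pow k N hN) A hA K Λ η hΛ hη hK
  refine le_trans (measure_mono ?_) hsd
  rintro x ⟨hx1, hx2⟩
  refine ⟨hx1, ?_⟩
  intro hall
  apply hx2
  intro b v hb
  obtain ⟨c, hc1, hc2⟩ := hC N hN b hb
  have hB0 : 0 < C * (N:ℝ) ^ (ε / 3) := by positivity
  have h1 := scale_DP (N ^ k) A x _ (C * (N:ℝ) ^ (ε / 3)) hB0 hall c hc2 v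
  have h2 : ∀ s ∈ A, ‖DP (N ^ k) c (v + x * s)‖ ^ 2 = ‖DP N b (v + x * s)‖ ^ (2 * k) := by
    intro s _
    rw [← hc1, norm_pow, ← pow_mul, mul_comm k 2]
  rw [sum_congr rfl h2] at h1
  have hlN : 0 ≤ Real.log N := Real.log_nonneg hNr
  have hKA : 1 ≤ K * A.card := by nlinarith
  have hl : 0 ≤ Real.log (K * A.card) := Real.log_nonneg hKA
  have hlogN : 1 + Real.log ((N ^ k : ℕ) : ℝ) ≤ (1 + 3 * k / ε) * (N:ℝ) ^ (ε / 3) := by
    have e1 := Real.log_le_rpow_div hN0.le (show 0 < ε / 3 by positivity)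
    have e2 : (1:ℝ) ≤ (N:ℝ) ^ (ε / 3) := Real.one_le_rpow hNr (by positivity)
    rw [Nat.cast_pow, Real.log_pow]
    have e3 : (k:ℝ) * Real.log N ≤ k * ((N:ℝ) ^ (ε / 3) / (ε / 3)) := by gcongr
    calc 1 + (k:ℝ) * Real.log N ≤ (N:ℝ) ^ (ε / 3) + k * ((N:ℝ) ^ (ε / 3) / (ε / 3)) := by
          linarith
      _ = _ := by field_simp
  have hε3 : (N:ℝ) ^ ε = ((N:ℝ) ^ (ε / 3)) ^ 2 * (N:ℝ) ^ (ε / 3) := by
    rw [← pow_succ, ← Real.rpow_natCast, ← Real.rpow_mul hN0.le]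
    congr 1
    push_cast; ring
  set W : ℝ := (N:ℝ) ^ (ε / 3) with hW
  have hW1 : 1 ≤ W := Real.one_le_rpow hNr (by positivity)
  set L1 : ℝ := 1 + Real.log (K * A.card) with hL1
  set L2 : ℝ := 1 + Real.log ((N ^ k : ℕ) : ℝ) with hL2
  have hL11 : 1 ≤ L1 := by rw [hL1]; linarith
  have hL21 : 1 ≤ L2 := by
    rw [hL2, Nat.cast_pow, Real.log_pow]
    have : 0 ≤ (k:ℝ) * Real.log N := by positivity
    linarith
  set n : ℝ := (A.card:ℝ) with hn
  have hcast : ((N ^ k : ℕ) : ℝ) = (N:ℝ) ^ k := by push_cast; rfl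
  have hmain : ∑ s ∈ A, ‖DP N b (v + x * s)‖ ^ (2 * k) ≤
      9 * C ^ 2 * (1 + 3 * k / ε) * (N:ℝ) ^ ε * (K ^ 2 / η) * L1 *
        ((N:ℝ) ^ (2 * k) + n * (N:ℝ) ^ k) := by
    refine h1.trans ?_
    rw [hcast]
    have hP : 0 < (N:ℝ) ^ k := by positivity
    have hQ : ((N:ℝ) ^ k) ^ 2 = (N:ℝ) ^ (2 * k) := by rw [← pow_mul, mul_comm k 2]
    have e1 : K / η * (K * (N:ℝ) ^ k * n + 9 * ((N:ℝ) ^ k) ^ 2 * L1 * L2) ≤
        K ^ 2 / η * (9 * L1 * L2) * ((N:ℝ) ^ (2 * k) + n * (N:ℝ) ^ k) := by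
      rw [hQ]
      have e2 : K * (N:ℝ) ^ k * n ≤ K * (9 * L1 * L2) * (n * (N:ℝ) ^ k) := by
        have e3 : (1:ℝ) ≤ 9 * L1 * L2 := by nlinarith
        have e4 : 0 ≤ K * (n * (N:ℝ) ^ k) := by positivity
        nlinarith
      have e5 : 9 * (N:ℝ) ^ (2 * k) * L1 * L2 ≤ K * (9 * L1 * L2) * (N:ℝ) ^ (2 * k) := by
        have e4 : 0 ≤ (9 * L1 * L2) * (N:ℝ) ^ (2 * k) := by positivity
        nlinarith
      calc K / η * (K * (N:ℝ) ^ k * n + 9 * (N:ℝ) ^ (2 * k) * L1 * L2)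
          ≤ K / η * (K * (9 * L1 * L2) * (n * (N:ℝ) ^ k) +
            K * (9 * L1 * L2) * (N:ℝ) ^ (2 * k)) := by gcongr
        _ = _ := by ring
    have hpos : 0 ≤ (N:ℝ) ^ (2 * k) + n * (N:ℝ) ^ k := by positivity
    calc (C * W) ^ 2 * (K / η * (K * (N:ℝ) ^ k * n + 9 * ((N:ℝ) ^ k) ^ 2 * L1 * L2))
        ≤ (C * W) ^ 2 * (K ^ 2 / η * (9 * L1 * L2) *
          ((N:ℝ) ^ (2 * k) + n * (N:ℝ) ^ k)) := by gcongr
      _ ≤ (C * W) ^ 2 * (K ^ 2 / η * (9 * L1 * ((1 + 3 * k / ε) * W)) *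
          ((N:ℝ) ^ (2 * k) + n * (N:ℝ) ^ k)) := by gcongr
      _ = _ := by rw [hε3]; ring
  refine ⟨hmain, ?_⟩
  intro q hq
  have hY : 1 ≤ 9 * C ^ 2 * (1 + 3 * k / ε) * (N:ℝ) ^ ε * (K ^ 2 / η) * L1 := by
    have a1 : 1 ≤ C ^ 2 := one_le_pow₀ hC1
    have a2 : (1:ℝ) ≤ 1 + 3 * k / ε := by
      have : 0 ≤ 3 * (k:ℝ) / ε := by positivity
      linarith
    have a3 : (1:ℝ) ≤ (N:ℝ) ^ ε := Real.one_le_rpow hNr hε.le
    have a4 : 1 ≤ K ^ 2 / η := by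
      rw [one_le_div hη]
      have : 1 ≤ K ^ 2 := one_le_pow₀ hK1
      linarith
    have b1 : 1 ≤ 9 * C ^ 2 := by linarith
    have b2 := one_le_mul_of_one_le_of_one_le b1 a2
    have b3 := one_le_mul_of_one_le_of_one_le b2 a3
    have b4 := one_le_mul_of_one_le_of_one_le b3 a4
    exact one_le_mul_of_one_le_of_one_le b4 hL11
  exact interp A hA (fun s => ‖DP N b (v + x * s)‖) (fun s _ => norm_nonneg _) k hk N _ q hNr
    (fun s _ => norm_DP_le N b hb _) hq hY hmain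

end Pool.Agent.TH961.AP
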